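import Pool.Agent.MP_993212_an.H57.Basic

/-! Rank factorisation over a principal ideal domain; pushing a shift equivalence through a
block matrix by algebraic elementary equivalences. -/

namespace Pool.Agent.MP_993212_an.H57

open Matrix

theorem rank_fact {K : Type} [CommRing K] [IsDomain K] [IsPrincipalIdealRing K] {m n : Type}
    [Fintype m] [Fintype n] [DecidableEq m] [DecidableEq n] (T : Matrix m n K) :
    ∃ (r : ℕ) (P : Matrix m (Fin r) K) (Q : Matrix (Fin r) n K), P * Q = T ∧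
      (∀ (o : Type) (X Y : Matrix (Fin r) o K), P * X = P * Y → X = Y) ∧
      (∀ (o : Type) (X Y : Matrix o (Fin r) K), X * Q = Y * Q → X = Y) := by
  obtain ⟨r, ⟨b⟩⟩ := Submodule.nonempty_basis_of_pid (Pi.basisFun K m)
    (LinearMap.range T.mulVecLin)
  let P : Matrix m (Fin r) K := fun i c => (b c : m → K) i
  let Q : Matrix (Fin r) n K := fun c j =>
    b.repr ⟨T.mulVec (Pi.single j 1), ⟨Pi.single j 1, rfl⟩⟩ c
  have hsum : ∀ (x : Fin r → K) (i : m),
      ∑ c, P i c * x c = ((∑ c, x c • b c : LinearMap.range T.mulVecLin) : m → K) i := by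
    intro x i
    simp only [P, Submodule.coe_sum, Submodule.coe_smul, Finset.sum_apply, Pi.smul_apply,
      smul_eq_mul, mul_comm]
  have hPQ : P * Q = T := by
    ext i j
    rw [Matrix.mul_apply, hsum (fun c => Q c j)]
    simp only [Q]
    rw [b.sum_repr]
    simp
  have hL : ∀ (o : Type) (X Y : Matrix (Fin r) o K), P * X = P * Y → X = Y := by
    intro o X Y h
    ext c j
    have h1 : (∑ c, X c j • b c : LinearMap.range T.mulVecLin) = ∑ c, Y c j • b c := by
      apply Subtype.ext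
      funext i
      rw [← hsum (fun c => X c j), ← hsum (fun c => Y c j), ← Matrix.mul_apply,
        ← Matrix.mul_apply, h]
    have h2 := congrArg (fun v => b.repr v c) h1
    simpa [Finsupp.single_apply] using h2
  refine ⟨r, P, Q, hPQ, hL, ?_⟩
  choose v hv using fun c => (b c).2
  have hQ : Q * (Matrix.of fun j c => v c j) = 1 := by
    apply hL
    rw [← Matrix.mul_assoc, hPQ, Matrix.mul_one]
    ext i c
    have := congrFun (hv c) i
    simpa [Matrix.mul_apply, Matrix.mulVec, dotProduct] using this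
  intro o X Y h
  rw [← Matrix.mul_one X, ← Matrix.mul_one Y, ← hQ, ← Matrix.mul_assoc, h, Matrix.mul_assoc]

/-- one reduction of the lag -/
theorem lag_step {K : Type} [CommRing K] [IsDomain K] [IsPrincipalIdealRing K] {α β : Type}
    [Fintype α] [Fintype β] [DecidableEq α] [DecidableEq β] {A : Matrix α α K} {B : Matrix β β K}
    {R : Matrix α β K} {S : Matrix β α K} {l : ℕ} (h1 : R * S = A ^ (l + 2))
    (h2 : S * R = B ^ (l + 2)) (h3 : A * R = R * B) (h4 : S * A = B * S) :
    ∃ (k : ℕ) (r : Matrix α (Fin k) K) (s : Matrix (Fin k) α K) (ρ : Matrix (Fin k) β K)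
      (σ : Matrix β (Fin k) K), r * s = A ∧ σ * s = S ∧ ρ * σ = (s * r) ^ (l + 1) ∧
      σ * ρ = B ^ (l + 1) ∧ s * r * ρ = ρ * B ∧ σ * (s * r) = B * σ := by
  obtain ⟨k, P, Q, hPQ, hL, hR⟩ := rank_fact (fromBlocks A R S (B ^ (l + 1)))
  rw [← fromRows_toRows P] at hPQ hL
  rw [← fromCols_toCols Q] at hPQ hR
  set r := P.toRows₁
  set σ := P.toRows₂
  set s := Q.toCols₁
  set ρ := Q.toCols₂
  rw [fromRows_mul_fromCols, fromBlocks_inj] at hPQ
  obtain ⟨e1, e2, e3, e4⟩ := hPQ
  have a1 : s * r * ρ = ρ * B := by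
    apply hL
    rw [fromRows_mul, fromRows_mul]
    congr 1
    · rw [← Matrix.mul_assoc, ← Matrix.mul_assoc, ← Matrix.mul_assoc, e1, Matrix.mul_assoc, e2,
        h3]
    · rw [← Matrix.mul_assoc, ← Matrix.mul_assoc, ← Matrix.mul_assoc, e3, Matrix.mul_assoc, e2,
        e4, h2, ← pow_succ]
  have a2 : σ * (s * r) = B * σ := by
    apply hR
    rw [mul_fromCols, mul_fromCols]
    congr 1
    · rw [← Matrix.mul_assoc, e3, Matrix.mul_assoc, e1, Matrix.mul_assoc, e3, h4]
    · rw [← Matrix.mul_assoc, e3, Matrix.mul_assoc, e2, Matrix.mul_assoc, e4, h2, ← pow_succ']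
  refine ⟨k, r, s, ρ, σ, e1, e3, ?_, e4, a1, a2⟩
  have a3 : r * (s * r) = A * r := by rw [← Matrix.mul_assoc, e1]
  apply hL
  rw [fromRows_mul, fromRows_mul]
  congr 1
  · apply hR
    rw [mul_fromCols, mul_fromCols, pow_inter' a3, ← Matrix.mul_assoc r, e2]
    congr 1
    · rw [Matrix.mul_assoc, e3, h1, Matrix.mul_assoc, e1, ← pow_succ]
    · rw [Matrix.mul_assoc, e4, Matrix.mul_assoc, e2, pow_inter h3]
  · rw [pow_inter' a2, ← Matrix.mul_assoc, e4]

/-- the matrix `c + d A ^ m` -/
def hb {F : Type} [CommSemiring F] {α : Type} [Fintype α] [DecidableEq α] (c d : F) (m : ℕ)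
    (A : Matrix α α F) : Matrix α α F := c • (1 : Matrix α α F) + d • A ^ m

theorem hb_inter {F : Type} [CommSemiring F] {α β : Type} [Fintype α] [DecidableEq α] [Fintype β]
    [DecidableEq β] (c d : F) (m : ℕ) {A : Matrix α α F} {B : Matrix β β F} {S : Matrix β α F}
    (h : S * A = B * S) : S * hb c d m A = hb c d m B * S := by
  simp only [hb, Matrix.mul_add, Matrix.add_mul, Matrix.mul_smul, Matrix.smul_mul, Matrix.mul_one,
    Matrix.one_mul, pow_inter' h]

theorem push {K F : Type} [CommRing K] [IsDomain K] [IsPrincipalIdealRing K] [CommRing F]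
    (φ : K →+* F) (c d : F) (m : ℕ) {β γ : Type} [Fintype β] [DecidableEq β] [Fintype γ]
    [DecidableEq γ] (B : Matrix β β K) (X : Matrix γ γ F) (l : ℕ) :
    ∀ {α : Type} [Fintype α] [DecidableEq α] (A : Matrix α α K) (R : Matrix α β K)
      (S : Matrix β α K) (Y : Matrix γ β F) (Z : Matrix α γ F), R * S = A ^ (l + 1) →
      S * R = B ^ (l + 1) → A * R = R * B → S * A = B * S →
      SSE ⊤ (fromBlocks X (Y * S.map φ) Z (hb c d m (A.map φ) * A.map φ))
        (fromBlocks X Y (S.map φ * Z) (hb c d m (B.map φ) * B.map φ)) := by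
  have key : ∀ {α δ : Type} [Fintype α] [DecidableEq α] [Fintype δ] [DecidableEq δ]
      (r : Matrix α δ K) (s : Matrix δ α K) (Y : Matrix γ δ F) (Z : Matrix α γ F),
      SSE ⊤ (fromBlocks X (Y * s.map φ) Z (hb c d m ((r * s).map φ) * (r * s).map φ))
        (fromBlocks X Y (s.map φ * Z) (hb c d m ((s * r).map φ) * (s * r).map φ)) := by
    intro α δ _ _ _ _ r s Y Z
    have h := SSE.block (P := ⊤) (In.top X) (In.top Y) (In.top Z)
      (In.top (hb c d m ((r * s).map φ) * r.map φ)) (In.top (s.map φ))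
    have e : s.map φ * (r * s).map φ = (s * r).map φ * s.map φ := by
      rw [← Matrix.map_mul, ← Matrix.map_mul, Matrix.mul_assoc]
    rwa [Matrix.mul_assoc, ← Matrix.map_mul, ← Matrix.mul_assoc, hb_inter c d m e,
      Matrix.mul_assoc, ← Matrix.map_mul] at h
  induction l with
  | zero =>
    intro α _ _ A R S Y Z h1 h2 _ _
    rw [zero_add, pow_one] at h1 h2
    rw [← h1, ← h2]
    exact key R S Y Z
  | succ l ih =>
    intro α _ _ A R S Y Z h1 h2 h3 h4
    obtain ⟨k, r, s, ρ, σ, e1, e2, e3, e4, e5, e6⟩ := lag_step h1 h2 h3 h4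
    have h5 := key r s (Y * σ.map φ) Z
    have h6 := ih (s * r) ρ σ Y (s.map φ * Z) e3 e4 e5 e6
    rw [← Matrix.mul_assoc, ← Matrix.map_mul, e2] at h6
    rw [Matrix.mul_assoc, ← Matrix.map_mul, e2, e1] at h5
    exact h5.trans h6

end Pool.Agent.MP_993212_an.H57
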