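import Pool.Agent.MP_993212_an.H18.WSpec
import Pool.Agent.MP_993212_an.H65.Div
import Pool.Agent.MP_993212_an.H15.Sus

/-! Norm bounds through determinants. -/

namespace Pool.Agent.MP_993212_an.H57

open Matrix Polynomial Finset H15 H18

namespace Bnd

variable {ρ : ℝ} {I : Type} [Fintype I] [DecidableEq I]

theorem nz_one : nz ρ 1 = 1 := by rw [nz, map_one, nm_one]

theorem nz_zero : nz ρ 0 = 0 := by rw [nz, map_zero, nm_zero]

theorem nz_sum {ι : Type} (T : Finset ι) (a : ι → ℤ[X]) :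
    nz ρ (∑ i ∈ T, a i) ≤ ∑ i ∈ T, nz ρ (a i) :=
  Finset.le_sum_of_subadditive (nz ρ) nz_zero.le nz_add T a

theorem nz_prod {ι : Type} (T : Finset ι) (a : ι → ℤ[X]) {K : ℝ} (hK : 1 ≤ K) {n : ℕ}
    (hn : T.card ≤ n) (h : ∀ i ∈ T, nz ρ (a i) ≤ K) : nz ρ (∏ i ∈ T, a i) ≤ K ^ n := by
  classical
  refine le_trans ?_ (pow_le_pow_right₀ hK hn)
  clear hn
  induction T using Finset.induction_on with
  | empty => simp [nz_one]
  | insert i T hi ih =>
    rw [prod_insert hi, card_insert_of_notMem hi, pow_succ']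
    exact (nz_mul _ _).trans (mul_le_mul (h i (mem_insert_self _ _))
      (ih fun j hj => h j (mem_insert_of_mem hj)) (nz_nonneg _) (by linarith))

theorem nz_sign (σ : Equiv.Perm I) (a : ℤ[X]) : nz ρ (Equiv.Perm.sign σ • a) = nz ρ a := by
  rcases Int.units_eq_one_or (Equiv.Perm.sign σ) with h | h <;> simp [h, nz_neg]

theorem nz_perm_sum (T : Finset (Equiv.Perm I)) (a : Equiv.Perm I → ℤ[X]) {B : ℝ} (hB : 0 ≤ B)
    (h : ∀ σ ∈ T, nz ρ (a σ) ≤ B) :
    nz ρ (∑ σ ∈ T, Equiv.Perm.sign σ • a σ) ≤ (Fintype.card I).factorial * B := by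
  refine (nz_sum _ _).trans ((sum_le_card_nsmul _ _ B fun σ hσ => by
    rw [nz_sign]; exact h σ hσ).trans ?_)
  rw [nsmul_eq_mul, ← Fintype.card_perm]
  exact mul_le_mul_of_nonneg_right (by exact_mod_cast card_le_univ T) hB

theorem nz_det {P : Matrix I I ℤ[X]} {K : ℝ} (hK : 1 ≤ K) (h : ∀ i j, nz ρ (P i j) ≤ K) :
    nz ρ P.det ≤ (Fintype.card I).factorial * K ^ Fintype.card I := by
  rw [det_apply]
  exact nz_perm_sum _ _ (by positivity) fun σ _ => nz_prod _ _ hK le_rfl fun i _ => h _ _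

theorem nz_div {ι : Type} (T : Finset ι) (φ : ι → ℤ[X]) {η : ℝ} (h0 : 0 ≤ η)
    (h : ∀ i ∈ T, nz ρ (φ i) ≤ 1 - η) (q : ℤ[X]) :
    η ^ T.card * nz ρ q ≤ nz ρ (q * ∏ i ∈ T, (1 - φ i)) := by
  classical
  induction T using Finset.induction_on with
  | empty => simp
  | insert i T hi ih =>
    rw [prod_insert hi, card_insert_of_notMem hi, pow_succ', mul_assoc, mul_left_comm q]
    refine (mul_le_mul_of_nonneg_left (ih fun j hj => h j (mem_insert_of_mem hj)) h0).trans ?_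
    generalize q * ∏ i ∈ T, (1 - φ i) = y
    have h1 := nz_add (ρ := ρ) ((1 - φ i) * y) (φ i * y)
    have h2 := (nz_mul (ρ := ρ) (φ i) y).trans
      (mul_le_mul_of_nonneg_right (h i (mem_insert_self _ _)) (nz_nonneg y))
    rw [show (1 - φ i) * y + φ i * y = y by ring] at h1
    linarith

theorem nz_deep {ρ' : ℝ} (h0 : 0 < ρ) (h : ρ ≤ ρ') {p : ℤ[X]} {L : ℕ} (hL : X ^ L ∣ p) :
    nz ρ p ≤ (ρ / ρ') ^ L * nz ρ' p := nm_deep h0 h (zr_dvd hL)

end Bnd

open Bnd

theorem boundStmt : BoundStmt := by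
  intro I _ _ ρ η χ _ hη
  obtain ⟨a, ha⟩ : ∃ a : ℝ, a = min η 1 ^ Fintype.card I := ⟨_, rfl⟩
  obtain ⟨B, hB⟩ : ∃ B : ℝ, B = (Fintype.card I).factorial * 2 ^ Fintype.card I := ⟨_, rfl⟩
  have m0 : 0 < min η 1 := lt_min hη one_pos
  have a0 : 0 < a := by rw [ha]; positivity
  have B0 : 0 < B := by rw [hB]; positivity
  refine ⟨min 1 (a / (2 * B)), lt_min one_pos (by positivity), 2 * (nz ρ χ + B) / a + 1,
    fun N z L dg h hd => ?_⟩
  generalize hε : min 1 (a / (2 * B)) = ε at h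
  have e1 : ε ≤ 1 := hε ▸ min_le_left _ _
  have e2 : ε * (2 * B) ≤ a := (le_div_iff₀ (by positivity)).1 (hε ▸ min_le_right _ _)
  have e0 : 0 ≤ ε := hε ▸ le_min zero_le_one (by positivity)
  have off : ∀ u l, u ≠ l → nz ρ ((1 - N) u l) ≤ ε := fun u l hul => by
    rw [Matrix.sub_apply, one_apply_ne hul, zero_sub, nz_neg]; exact (h.off u l hul).2
  have two : ∀ u l, u ≠ z ∨ l ≠ z → nz ρ ((1 - N) u l) ≤ 2 := fun u l hul => by
    by_cases e : u = l
    · subst e
      have h1 := nz_sub (ρ := ρ) 1 (N u u)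
      have h2 := h.lt u (by tauto)
      rw [nz_one] at h1
      rw [Matrix.sub_apply, one_apply_eq]
      linarith
    · exact (off u l e).trans (by linarith)
  obtain ⟨u, hu⟩ : ∃ u, u = (1 - N) z z := ⟨_, rfl⟩
  have u0 := nz_nonneg (ρ := ρ) u
  have ho : ∀ σ ∈ univ.erase (1 : Equiv.Perm I),
      nz ρ (∏ i, (1 - N) (σ i) i) ≤ 2 ^ Fintype.card I * (ε * nz ρ u + 1) := by
    intro σ hσ
    have p0 : (0 : ℝ) < 2 ^ Fintype.card I := by positivity
    by_cases hz : σ z = z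
    · obtain ⟨b, hb⟩ : ∃ b, σ b ≠ b := by
        by_contra h2
        exact ne_of_mem_erase hσ (Equiv.ext fun b => by simpa using fun h3 => h2 ⟨b, h3⟩)
      have hbz : b ≠ z := fun e => hb (by rw [e, hz])
      rw [← mul_prod_erase _ _ (mem_univ z), ← mul_prod_erase _ _ (mem_erase.2 ⟨hbz, mem_univ _⟩),
        hz, ← hu]
      have h2 := nz_prod (ρ := ρ) ((univ.erase z).erase b) (fun i => (1 - N) (σ i) i) one_le_two
        (card_le_univ _) fun i hi => two _ _ (Or.inr (ne_of_mem_erase (mem_of_mem_erase hi)))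
      refine (nz_mul _ _).trans ((mul_le_mul_of_nonneg_left ((nz_mul _ _).trans
        (mul_le_mul (off _ _ hb) h2 (nz_nonneg _) e0)) u0).trans ?_)
      nlinarith
    · refine (nz_prod _ _ one_le_two (card_le_univ _) fun i _ => two _ _ ?_).trans
        (le_mul_of_one_le_right p0.le (by nlinarith))
      by_cases e : i = z
      · exact Or.inl (e ▸ hz)
      · exact Or.inr e
  have h3 := nz_perm_sum _ _ (by positivity) ho
  rw [← mul_assoc, ← hB] at h3
  rw [det_apply, ← add_sum_erase _ _ (mem_univ 1)] at hd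
  simp only [Equiv.Perm.sign_one, one_smul, Equiv.Perm.coe_one, id] at hd
  rw [← mul_prod_erase _ _ (mem_univ z), ← hu] at hd
  have h4 := nz_div (ρ := ρ) (univ.erase z) (fun j => N j j) m0.le
    (fun j hj => (h.lt j (ne_of_mem_erase hj)).trans (by linarith [min_le_left η 1])) u
  have h5 : a ≤ min η 1 ^ (univ.erase z).card :=
    ha ▸ pow_le_pow_of_le_one m0.le (min_le_right _ _) (card_le_univ _)
  have h6 : ∏ j ∈ univ.erase z, (1 - N j j) = ∏ j ∈ univ.erase z, (1 - N) j j :=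
    prod_congr rfl fun j _ => by rw [Matrix.sub_apply, one_apply_eq]
  rw [h6, eq_sub_of_add_eq hd] at h4
  have h7 := h4.trans (nz_sub _ _)
  have h8 : nz ρ u ≤ 2 * (nz ρ χ + B) / a := by
    rw [le_div_iff₀ a0]
    nlinarith [mul_le_mul_of_nonneg_right h5 u0, mul_le_mul_of_nonneg_right e2 u0]
  have h9 := nz_sub (ρ := ρ) 1 u
  rw [nz_one, hu, Matrix.sub_apply, one_apply_eq, sub_sub_cancel] at h9
  rw [hu, Matrix.sub_apply, one_apply_eq] at h8
  linarith

theorem closeStmt : CloseStmt := by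
  intro I _ _ ρ ρ₁ K δ χ L₁ h0 h1 hδ hχ ⟨c, hc⟩
  obtain ⟨n, hn⟩ : ∃ n : ℝ, n = Fintype.card I := ⟨_, rfl⟩
  obtain ⟨A, hA⟩ : ∃ A : ℝ, A = (Fintype.card I).factorial * max K 1 ^ Fintype.card I := ⟨_, rfl⟩
  have t : Filter.Tendsto (fun L : ℕ => n * (n * (|c| * ((ρ / ρ₁) ^ L * (n * (2 * K * A))))))
      Filter.atTop (nhds (n * (n * (|c| * (0 * (n * (2 * K * A))))))) :=
    ((((tendsto_pow_atTop_nhds_zero_of_lt_one (div_pos h0 (h0.trans h1)).le
      ((div_lt_one (h0.trans h1)).2 h1)).mul_const _).const_mul _).const_mul _).const_mul _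
  obtain ⟨L, hL, hL1⟩ := ((t.eventually (eventually_le_nhds (by simpa using hδ))).and
    (Filter.eventually_ge_atTop L₁)).exists
  refine ⟨L, fun P₁ P₂ U hU hd h => ?_⟩
  have e : ∀ i j, χ * (U - 1) i j = ∑ l, (P₁ - P₂) i l * P₂.adjugate l j := fun i j => by
    rw [← Matrix.mul_apply, show P₁ - P₂ = (U - 1) * P₂ by rw [hU, sub_mul, one_mul],
      Matrix.mul_assoc, mul_adjugate, hd, Matrix.mul_smul, Matrix.mul_one, Matrix.smul_apply,
      smul_eq_mul]
  have dv : ∀ i j, X ^ L ∣ χ * (U - 1) i j := fun i j => by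
    rw [e]; exact dvd_sum fun l _ => (h i l).2.2.mul_right _
  have cp : IsCoprime (X ^ L : ℤ[X]) χ := IsCoprime.pow_left ⟨-divX χ, 1, by
    have := divX_mul_X_add χ
    rw [hχ, C_1] at this
    linear_combination -this⟩
  refine ⟨le_trans ?_ hL, fun i j => (pow_dvd_pow X hL1).trans (cp.dvd_of_dvd_mul_left (dv i j))⟩
  have sm : ∀ (f : I → ℝ) (b : ℝ), (∀ i, f i ≤ b) → ∑ i, f i ≤ n * b := fun f b hf => by
    simpa [hn] using sum_le_card_nsmul univ f b fun i _ => hf i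
  refine sm _ _ fun i => sm _ _ fun j => (hc _).trans ((mul_le_mul_of_nonneg_right (le_abs_self c)
    (nz_nonneg _)).trans (mul_le_mul_of_nonneg_left ((nz_deep h0 h1.le (dv i j)).trans
      (mul_le_mul_of_nonneg_left ?_ (pow_nonneg (div_pos h0 (h0.trans h1)).le _))) (abs_nonneg c)))
  rw [e]
  refine (nz_sum _ _).trans (sm _ _ fun l => (nz_mul _ _).trans (mul_le_mul ?_ ?_ (nz_nonneg _) ?_))
  · exact (nz_sub _ _).trans (by linarith [(h i l).1, (h i l).2.1])
  · rw [adjugate_apply, hA]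
    refine nz_det (le_max_right _ _) fun a b => ?_
    rw [updateRow_apply, Pi.single_apply]
    split_ifs
    · rw [nz_one]; exact le_max_right _ _
    · rw [nz_zero]; positivity
    · exact (h a b).2.1.trans (le_max_left _ _)
  · linarith [(h i l).1, nz_nonneg (ρ := ρ₁) (P₁ i l)]

theorem divStmt : DivStmt := fun χ h => by
  obtain ⟨S, hS⟩ := H65.div_fin (χ := χ) (by rintro rfl; simp at h)
  exact ⟨S, fun ρ _ hρ => let ⟨c, _, hc⟩ := hS ρ hρ; ⟨c, hc⟩⟩

theorem susStmt : SusStmt := ⟨6, fun _ _ _ h => sus h⟩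

end Pool.Agent.MP_993212_an.H57
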