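import Mathlib

/-! Strong shift equivalence with factors in a subsemiring, on arbitrary finite index types. -/

namespace Pool.Agent.MP_993212_an.H57

open Matrix

section In

variable {K : Type} [CommSemiring K] {P : Subsemiring K} {l m n o : Type}

/-- all entries lie in `P` -/
def In (P : Subsemiring K) (M : Matrix m n K) : Prop := ∀ i j, M i j ∈ P

theorem In.top (M : Matrix m n K) : In ⊤ M := fun _ _ => Subsemiring.mem_top _

theorem In.zero : In P (0 : Matrix m n K) := fun _ _ => P.zero_mem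

theorem In.one [DecidableEq m] : In P (1 : Matrix m m K) := fun i j => by
  rw [Matrix.one_apply]
  split_ifs
  exacts [P.one_mem, P.zero_mem]

theorem In.add {A B : Matrix m n K} (hA : In P A) (hB : In P B) : In P (A + B) :=
  fun i j => P.add_mem (hA i j) (hB i j)

theorem In.mul [Fintype m] {A : Matrix l m K} {B : Matrix m n K} (hA : In P A) (hB : In P B) :
    In P (A * B) :=
  fun i j => by
    rw [Matrix.mul_apply]
    exact P.sum_mem fun k _ => P.mul_mem (hA i k) (hB k j)

theorem In.smul {c : K} {A : Matrix m n K} (hc : c ∈ P) (hA : In P A) : In P (c • A) :=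
  fun i j => P.mul_mem hc (hA i j)

theorem In.pow [Fintype m] [DecidableEq m] {A : Matrix m m K} (hA : In P A) (k : ℕ) :
    In P (A ^ k) := by
  induction k with
  | zero => rw [pow_zero]; exact In.one
  | succ k ih => rw [pow_succ]; exact ih.mul hA

theorem In.transpose {A : Matrix m n K} (hA : In P A) : In P Aᵀ := fun i j => hA j i

theorem In.submatrix {A : Matrix m n K} (hA : In P A) (e : l → m) (f : o → n) :
    In P (A.submatrix e f) := fun i j => hA (e i) (f j)

theorem In.fromBlocks {A : Matrix l m K} {B : Matrix l n K} {C : Matrix o m K} {D : Matrix o n K}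
    (hA : In P A) (hB : In P B) (hC : In P C) (hD : In P D) : In P (fromBlocks A B C D) := by
  rintro (i | i) (j | j)
  exacts [hA i j, hB i j, hC i j, hD i j]

theorem In.fromRows {A : Matrix l m K} {C : Matrix o m K} (hA : In P A) (hC : In P C) :
    In P (fromRows A C) := by
  rintro (i | i) j
  exacts [hA i j, hC i j]

theorem In.fromCols {A : Matrix l m K} {B : Matrix l n K} (hA : In P A) (hB : In P B) :
    In P (fromCols A B) := by
  rintro i (j | j)
  exacts [hA i j, hB i j]

theorem In.exists_lift {A : Matrix m n K} (hA : In P A) :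
    ∃ A' : Matrix m n P, A'.map P.subtype = A :=
  ⟨fun i j => ⟨A i j, hA i j⟩, rfl⟩

theorem In.mono {Q : Subsemiring K} (h : P ≤ Q) {A : Matrix m n K} (hA : In P A) : In Q A :=
  fun i j => h (hA i j)

end In

variable {K : Type} [CommSemiring K] {P : Subsemiring K}
variable {U V W : Type} [Fintype U] [Fintype V] [Fintype W]
  [DecidableEq U] [DecidableEq V] [DecidableEq W]

/-- `B` is reached from `A` by steps `R * S ↦ S * R` with factors over `P` -/
def SSE (P : Subsemiring K) (A : Matrix V V K) (B : Matrix W W K) : Prop :=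
  ∀ Q : ∀ (X : Type) [Fintype X] [DecidableEq X], Matrix X X K → Prop,
    (∀ (X Y : Type) [Fintype X] [DecidableEq X] [Fintype Y] [DecidableEq Y] (R : Matrix X Y K)
      (S : Matrix Y X K), In P R → In P S → Q X (R * S) → Q Y (S * R)) → Q V A → Q W B

theorem SSE.refl (A : Matrix V V K) : SSE P A A := fun _ _ h => h

theorem SSE.of_eq {A B : Matrix V V K} (h : A = B) : SSE P A B := h ▸ SSE.refl A

theorem SSE.step {R : Matrix V W K} {S : Matrix W V K} (hR : In P R) (hS : In P S) :
    SSE P (R * S) (S * R) := fun _ h => h _ _ R S hR hS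

theorem SSE.step' {A : Matrix V V K} {B : Matrix W W K} (R : Matrix V W K) (S : Matrix W V K)
    (hR : In P R) (hS : In P S) (h1 : R * S = A) (h2 : S * R = B) : SSE P A B :=
  h1 ▸ h2 ▸ SSE.step hR hS

theorem SSE.trans {A : Matrix U U K} {B : Matrix V V K} {C : Matrix W W K} (h1 : SSE P A B)
    (h2 : SSE P B C) : SSE P A C := fun Q h hA => h2 Q h (h1 Q h hA)

theorem SSE.symm {A : Matrix V V K} {B : Matrix W W K} (h : SSE P A B) : SSE P B A :=
  h (fun _ _ _ C => SSE P C A) (fun _ _ _ _ _ _ _ _ hR hS hq => (SSE.step hS hR).trans hq)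
    (SSE.refl A)

theorem SSE.map {L : Type} [CommSemiring L] {Q : Subsemiring L} (φ : K →+* L)
    (hφ : ∀ x ∈ P, φ x ∈ Q) {A : Matrix V V K} {B : Matrix W W K} (h : SSE P A B) :
    SSE Q (A.map φ) (B.map φ) :=
  h (fun _ _ _ C => SSE Q (A.map φ) (C.map φ))
    (fun _ _ _ _ _ _ R S hR hS hq => hq.trans (SSE.step' (R.map φ) (S.map φ)
      (fun i j => hφ _ (hR i j)) (fun i j => hφ _ (hS i j)) Matrix.map_mul.symm
      Matrix.map_mul.symm)) (SSE.refl _)

theorem SSE.mono {Q : Subsemiring K} (hPQ : P ≤ Q) {A : Matrix V V K} {B : Matrix W W K}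
    (h : SSE P A B) : SSE Q A B :=
  fun T hT => h T fun X Y _ _ _ _ R S hR hS => hT X Y R S (hR.mono hPQ) (hS.mono hPQ)

theorem SSE.transpose {A : Matrix V V K} {B : Matrix W W K} (h : SSE P A B) : SSE P Aᵀ Bᵀ :=
  h (fun _ _ _ C => SSE P Aᵀ Cᵀ)
    (fun _ _ _ _ _ _ R S hR hS hq => hq.trans (SSE.step' Sᵀ Rᵀ hS.transpose hR.transpose
      (transpose_mul _ _).symm (transpose_mul _ _).symm)) (SSE.refl _)

theorem SSE.in {A : Matrix V V K} {B : Matrix W W K} (h : SSE P A B) (hA : In P A) : In P B :=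
  h (fun _ _ _ C => In P C) (fun _ _ _ _ _ _ _ _ hR hS _ => hS.mul hR) hA

/-- from the subsemiring as a coefficient semiring to the ambient semiring -/
theorem SSE.lift {A : Matrix V V P} {B : Matrix W W P} (h : SSE ⊤ A B) :
    SSE P (A.map P.subtype) (B.map P.subtype) :=
  h.map P.subtype fun x _ => x.2

/-- the block move -/
theorem SSE.block {X : Matrix U U K} {Y : Matrix U W K} {Z : Matrix V U K} {R : Matrix V W K}
    {S : Matrix W V K} (hX : In P X) (hY : In P Y) (hZ : In P Z) (hR : In P R) (hS : In P S) :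
    SSE P (fromBlocks X (Y * S) Z (R * S)) (fromBlocks X Y (S * Z) (S * R)) :=
  SSE.step' (fromBlocks X Y Z R) (fromBlocks 1 0 0 S) (hX.fromBlocks hY hZ hR)
    (In.one.fromBlocks In.zero In.zero hS) (by simp [fromBlocks_multiply])
    (by simp [fromBlocks_multiply])

theorem pow_inter {α : Type} [Semiring α] {A : Matrix V V α} {B : Matrix W W α}
    {R : Matrix V W α} (h : A * R = R * B) (k : ℕ) : A ^ k * R = R * B ^ k := by
  induction k with
  | zero => simp
  | succ k ih => rw [pow_succ, Matrix.mul_assoc, h, ← Matrix.mul_assoc, ih, Matrix.mul_assoc,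
      ← pow_succ]

theorem pow_inter' {α : Type} [Semiring α] {A : Matrix V V α} {B : Matrix W W α}
    {S : Matrix W V α} (h : S * A = B * S) (k : ℕ) : S * A ^ k = B ^ k * S :=
  (pow_inter h.symm k).symm

/-- shift equivalence over `P` -/
def SE (P : Subsemiring K) (A : Matrix V V K) (B : Matrix W W K) : Prop :=
  ∃ (l : ℕ) (R : Matrix V W K) (S : Matrix W V K), In P R ∧ In P S ∧ R * S = A ^ (l + 1) ∧
    S * R = B ^ (l + 1) ∧ A * R = R * B ∧ S * A = B * S

theorem SE.symm {A : Matrix V V K} {B : Matrix W W K} (h : SE P A B) : SE P B A := by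
  obtain ⟨l, R, S, hR, hS, h1, h2, h3, h4⟩ := h
  exact ⟨l, S, R, hS, hR, h2, h1, h4.symm, h3.symm⟩

theorem SE.trans {A : Matrix U U K} {B : Matrix V V K} {C : Matrix W W K} (h1 : SE P A B)
    (h2 : SE P B C) : SE P A C := by
  obtain ⟨l, R, S, hR, hS, h1, h2', h3, h4⟩ := h1
  obtain ⟨l', R', S', hR', hS', h1', h2'', h3', h4'⟩ := h2
  refine ⟨l + l' + 1, R * R', S' * S, hR.mul hR', hS'.mul hS, ?_, ?_, ?_, ?_⟩
  · rw [Matrix.mul_assoc, ← Matrix.mul_assoc R', h1', ← pow_inter' h4, ← Matrix.mul_assoc,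
      h1, ← pow_add]
    congr 1
    omega
  · rw [Matrix.mul_assoc, ← Matrix.mul_assoc S, h2', pow_inter h3', ← Matrix.mul_assoc,
      h2'', ← pow_add]
    congr 1
    omega
  · rw [← Matrix.mul_assoc, h3, Matrix.mul_assoc, h3', Matrix.mul_assoc]
  · rw [Matrix.mul_assoc, h4, ← Matrix.mul_assoc, h4', Matrix.mul_assoc]

theorem SE.refl {A : Matrix V V K} (hA : In P A) : SE P A A :=
  ⟨0, A, 1, hA, In.one, by simp, by simp, rfl, by simp⟩

theorem SSE.se {A : Matrix V V K} {B : Matrix W W K} (h : SSE P A B) (hA : In P A) : SE P A B :=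
  h (fun _ _ _ C => SE P A C)
    (fun _ _ _ _ _ _ R S hR hS hq => hq.trans ⟨0, R, S, hR, hS, by simp, by simp,
      Matrix.mul_assoc _ _ _, (Matrix.mul_assoc _ _ _).symm⟩) (SE.refl hA)

end Pool.Agent.MP_993212_an.H57
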