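import Pool.Agent.MP_993212_an.H57.Level

/-! Comb matrices: levels counting consecutive steps of one kind. -/

namespace Pool.Agent.MP_993212_an.H57

open Matrix

variable {K : Type} [CommSemiring K] {α β γ I J L : Type}

def blk (f : I → J → Matrix α β K) : Matrix (I × α) (J × β) K := fun x y => f x.1 y.1 x.2 y.2

def bcol (f : I → Matrix α β K) : Matrix (I × α) β K := fun x y => f x.1 x.2 y

def brow (f : J → Matrix α β K) : Matrix α (J × β) K := fun x y => f y.1 x y.2

theorem blk_mul_blk [Fintype J] [Fintype β] (f : I → J → Matrix α β K) (g : J → L → Matrix β γ K) :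
    blk f * blk g = blk fun i l => ∑ j, f i j * g j l := by
  ext x y
  simp only [blk, Matrix.mul_apply, Fintype.sum_prod_type, Matrix.sum_apply]

theorem blk_mul_bcol [Fintype J] [Fintype β] (f : I → J → Matrix α β K) (g : J → Matrix β γ K) :
    blk f * bcol g = bcol fun i => ∑ j, f i j * g j := by
  ext x y
  simp only [blk, bcol, Matrix.mul_apply, Fintype.sum_prod_type, Matrix.sum_apply]

theorem brow_mul_blk [Fintype J] [Fintype β] (f : J → Matrix α β K) (g : J → L → Matrix β γ K) :
    brow f * blk g = brow fun l => ∑ j, f j * g j l := by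
  ext x y
  simp only [blk, brow, Matrix.mul_apply, Fintype.sum_prod_type, Matrix.sum_apply]

theorem brow_mul_bcol [Fintype J] [Fintype β] (f : J → Matrix α β K) (g : J → Matrix β γ K) :
    brow f * bcol g = ∑ j, f j * g j := by
  ext x y
  simp only [bcol, brow, Matrix.mul_apply, Fintype.sum_prod_type, Matrix.sum_apply]

theorem bcol_mul_brow [Fintype β] (f : I → Matrix α β K) (g : L → Matrix β γ K) :
    bcol f * brow g = blk fun i l => f i * g l := by
  ext x y
  simp only [blk, bcol, brow, Matrix.mul_apply]

theorem bcol_mul [Fintype β] (f : I → Matrix α β K) (M : Matrix β γ K) :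
    bcol f * M = bcol fun i => f i * M := by
  ext x y
  simp only [bcol, Matrix.mul_apply]

theorem mul_brow [Fintype β] (M : Matrix α β K) (g : L → Matrix β γ K) :
    M * brow g = brow fun l => M * g l := by
  ext x y
  simp only [brow, Matrix.mul_apply]

theorem blk_add (f g : I → J → Matrix α β K) : blk f + blk g = blk fun i j => f i j + g i j := rfl

theorem blk_one [DecidableEq I] [DecidableEq α] :
    (1 : Matrix (I × α) (I × α) K) = blk fun i j => if i = j then 1 else 0 := by
  ext ⟨i, x⟩ ⟨j, y⟩
  by_cases h : i = j <;> simp [blk, Matrix.one_apply, h]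

theorem sum_val {M : Type} [AddCommMonoid M] (n t : ℕ) (g : ℕ → M) :
    ∑ l : Fin n, (if (l : ℕ) = t then g l else 0) = if t < n then g t else 0 := by
  split_ifs with h
  · rw [Finset.sum_eq_single ⟨t, h⟩]
    · simp
    · intro b _ hb
      rw [if_neg]
      exact fun h' => hb (Fin.ext h')
    · simp
  · refine Finset.sum_eq_zero fun l _ => if_neg ?_
    have := l.2
    omega

variable [Fintype α] [DecidableEq α] [Fintype β] [DecidableEq β]

/-- block from level `i` to level `j` -/
def cx (c : ℕ → Matrix α α K) (i j : ℕ) : Matrix α α K :=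
  (if j = 0 then c i else 0) + if j = i + 1 then 1 else 0

def cX (k l : ℕ) (c : ℕ → Matrix α α K) : Matrix (Fin k × α) (Fin l × α) K :=
  blk fun i j => cx c i j

def cY (k : ℕ) (Y : Matrix α β K) : Matrix (Fin k × α) β K :=
  bcol fun i => if (i : ℕ) + 1 = k then Y else 0

def cZ (k : ℕ) (Z : Matrix β α K) : Matrix β (Fin k × α) K :=
  brow fun j => if (j : ℕ) = 0 then Z else 0

def comb (k : ℕ) (c : ℕ → Matrix α α K) (Y : Matrix α β K) (Z : Matrix β α K)
    (W : Matrix β β K) : Matrix (Fin k × α ⊕ β) (Fin k × α ⊕ β) K :=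
  fromBlocks (cX k k c) (cY k Y) (cZ k Z) W

def pur (k : ℕ) (a b : Matrix α α K) : Matrix (Fin k × α ⊕ α) (Fin k × α ⊕ α) K :=
  comb k (fun i => b ^ i * a) (b ^ k) a b

omit [Fintype α] [DecidableEq α] [DecidableEq β] in
theorem cY_mul (k : ℕ) (Y : Matrix α β K) (M : Matrix β γ K) : cY k Y * M = cY k (Y * M) := by
  simp only [cY, bcol_mul]
  congr 1
  funext i
  split_ifs <;> simp

omit [Fintype α] [DecidableEq α] [DecidableEq β] in
theorem mul_cZ (k : ℕ) (M : Matrix γ β K) (Z : Matrix β α K) : M * cZ k Z = cZ k (M * Z) := by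
  simp only [cZ, mul_brow]
  congr 1
  funext i
  split_ifs <;> simp

theorem pur_one (a b : Matrix α α K) : SSE ⊤ (pur 1 a b) (a + b) := by
  refine SSE.step' (fromRows (bcol fun _ => (1 : Matrix α α K)) 1)
    (fromCols (brow fun _ => a) b) (In.top _) (In.top _) ?_ ?_
  · simp only [fromRows_mul_fromCols, bcol_mul_brow, pur, comb, cX, cY, cZ,
      Matrix.one_mul]
    rw [bcol_mul]
    simp [cx]
  · simp [fromCols_mul_fromRows, brow_mul_bcol]

theorem pur_succ (k : ℕ) (a b : Matrix α α K) : SSE ⊤ (pur (k + 2) a b) (pur (k + 1) a b) := by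
  refine SSE.step'
    (fromBlocks (blk fun (i : Fin (k + 2)) (j : Fin (k + 1)) =>
      if (j : ℕ) = i then (1 : Matrix α α K) else 0) (cY (k + 2) (b ^ (k + 1))) 0 1)
    (fromBlocks (cX (k + 1) (k + 2) fun i => b ^ i * a) 0 (cZ (k + 2) a) b)
    (In.top _) (In.top _) ?_ ?_
  · simp only [fromBlocks_multiply, pur, comb, Matrix.mul_zero, Matrix.zero_mul, zero_add,
      Matrix.one_mul]
    rw [cY_mul _ _ b, ← pow_succ]
    congr 1
    simp only [cX, cY, cZ, blk_mul_blk]
    rw [bcol_mul_brow, blk_add]
    simp only [ite_mul, one_mul, zero_mul]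
    congr 1
    funext i j
    rw [sum_val (k + 1) i fun l => cx (fun i => b ^ i * a) l j]
    have hi := i.2
    have hj := j.2
    by_cases h : (i : ℕ) < k + 1
    · rw [if_pos h, if_neg (by omega), add_zero]
    · have : (i : ℕ) = k + 1 := by omega
      rw [if_neg h, if_pos (by omega), zero_add, cx, this,
        if_neg (show ¬ (j : ℕ) = k + 1 + 1 by omega)]
      split_ifs <;> simp
  · simp only [fromBlocks_multiply, pur, comb, Matrix.mul_zero, add_zero, Matrix.mul_one]
    simp only [cX, cY, cZ, blk_mul_blk, blk_mul_bcol, brow_mul_blk, brow_mul_bcol, mul_ite,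
      mul_one, mul_zero, Nat.add_right_cancel_iff]
    congr 1
    · congr 1
      funext i j
      have hj := j.2
      simp only [eq_comm (a := (j : ℕ))]
      rw [sum_val (k + 2) j fun l => cx (fun i => b ^ i * a) i l, if_pos (by omega)]
    · congr 1
      funext i
      rw [sum_val (k + 2) (k + 1) fun l => cx (fun i => b ^ i * a) i l * b ^ (k + 1),
        if_pos (by omega), cx, if_neg (by omega), zero_add]
      by_cases h : (i : ℕ) = k
      · rw [if_pos (by omega), if_pos h, one_mul]
      · rw [if_neg (by omega), if_neg h, zero_mul]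
    · congr 1
      funext j
      have hj := j.2
      simp only [eq_comm (a := (j : ℕ))]
      rw [sum_val (k + 2) j fun l => if l = 0 then a else 0, if_pos (by omega)]
      simp only [eq_comm (a := (j : ℕ))]
    · rw [sum_val (k + 2) (k + 1) fun l => (if l = 0 then a else 0) * b ^ (k + 1)]
      simp

theorem pur_sse (k : ℕ) (a b : Matrix α α K) : SSE ⊤ (pur (k + 1) a b) (a + b) := by
  induction k with
  | zero => exact pur_one a b
  | succ k ih => exact (pur_succ k a b).trans ih

/-- the end where the second letter factors through the other side -/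
theorem comb_start (k : ℕ) (a : Matrix α α K) (Y R : Matrix α β K) (S : Matrix β α K)
    (hY : Y * S = (R * S) ^ (k + 1)) :
    SSE ⊤ (comb (k + 1) (fun i => (R * S) ^ i * a) Y (S * a) (S * R)) (a + R * S) := by
  refine SSE.trans (SSE.symm ?_) (pur_sse k a (R * S))
  have h := SSE.block (P := ⊤) (In.top (cX (k + 1) (k + 1) fun i => (R * S) ^ i * a))
    (In.top (cY (k + 1) Y)) (In.top (cZ (k + 1) a)) (In.top R) (In.top S)
  rwa [cY_mul, mul_cZ, hY] at h

/-- the end where the first letter factors through the other side -/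
theorem comb_end (k : ℕ) (b : Matrix α α K) (b' : Matrix β β K) (Y R : Matrix α β K)
    (S : Matrix β α K) (hb : S * b = b' * S) (hY : S * Y = b' ^ (k + 1)) :
    SSE ⊤ (comb (k + 1) (fun i => b ^ i * (R * S)) Y (S * (R * S)) b') (S * R + b') := by
  refine SSE.trans ?_ (pur_sse k (S * R) b')
  have h := level_move (K := K) (α := Fin (k + 1) × α ⊕ β) (β := Fin (k + 1) × β ⊕ β)
    (Sum.elim (fun x => x.1) fun _ => k + 1) (Sum.elim (fun x => x.1) fun _ => k + 1)
    (fromBlocks (blk fun i j => if (j : ℕ) = i then S else 0) 0 0 1)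
    (fromBlocks (blk fun i j => if (j : ℕ) = 0 then b ^ (i : ℕ) * R else 0) 0
      (cZ (k + 1) (S * R)) b')
    (fromBlocks (blk fun i j => if (j : ℕ) = i + 1 then 1 else 0) (cY (k + 1) Y) 0 0)
    (fromBlocks (blk fun i j => if (j : ℕ) = i + 1 then 1 else 0) (cY (k + 1) (b' ^ (k + 1))) 0 0)
    ?_ ?_ ?_ ?_
  · convert h using 1
    · simp only [fromBlocks_multiply, comb, Matrix.mul_zero, add_zero, zero_add,
        Matrix.mul_one, fromBlocks_add]
      congr 1
      · simp only [cX, blk_mul_blk, blk_add, cx]
        congr 1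
        funext i j
        rw [add_comm]
        congr 1
        have hj := j.2
        rw [← (sum_val (k + 1) j fun l => if l = 0 then b ^ (i : ℕ) * (R * S) else 0).trans
          (if_pos hj)]
        refine Finset.sum_congr rfl fun l _ => ?_
        simp only [eq_comm (a := (j : ℕ))]
        split_ifs <;> simp [Matrix.mul_assoc]
      · simp only [cZ, brow_mul_blk]
        congr 1
        funext j
        have hj := j.2
        rw [← (sum_val (k + 1) j fun l => if l = 0 then S * (R * S) else 0).trans (if_pos hj)]
        refine Finset.sum_congr rfl fun l _ => ?_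
        simp only [eq_comm (a := (j : ℕ))]
        split_ifs <;> simp [Matrix.mul_assoc]
    · simp only [fromBlocks_multiply, pur, comb, Matrix.mul_zero, Matrix.zero_mul, add_zero,
        zero_add, Matrix.one_mul, fromBlocks_add]
      congr 1
      simp only [cX, blk_mul_blk, blk_add, cx]
      congr 1
      funext i j
      rw [add_comm]
      congr 1
      have hi := i.2
      rw [← (sum_val (k + 1) i fun l => if (j : ℕ) = 0 then b' ^ l * (S * R) else 0).trans
        (if_pos hi)]
      refine Finset.sum_congr rfl fun l _ => ?_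
      split_ifs <;> simp [← Matrix.mul_assoc, pow_inter' hb]
  · rintro (⟨i, y⟩ | y) (⟨j, x⟩ | x) hne
    · by_contra h'
      apply hne
      simp only [Sum.elim_inl] at h'
      simp [blk, if_neg (Ne.symm h')]
    · simp at hne
    · simp at hne
    · rfl
  · rintro (⟨i, y⟩ | y) (⟨j, x⟩ | x) hne
    · by_contra h'
      apply hne
      simp only [Sum.elim_inl] at h'
      simp [blk, if_neg (show ¬ (j : ℕ) = i + 1 by omega)]
    · exact i.2
    · simp at hne
    · simp at hne
  · rintro (⟨i, y⟩ | y) (⟨j, x⟩ | x) hne
    · by_contra h'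
      apply hne
      simp only [Sum.elim_inl] at h'
      simp [blk, if_neg (show ¬ (j : ℕ) = i + 1 by omega)]
    · exact i.2
    · simp at hne
    · simp at hne
  · simp only [fromBlocks_multiply, Matrix.mul_zero, Matrix.zero_mul, add_zero, Matrix.mul_one]
    congr 1
    · simp only [blk_mul_blk]
      congr 1
      funext i j
      have hi := i.2
      have hj := j.2
      rw [(Finset.sum_congr rfl fun l _ => ?_).trans
        ((sum_val (k + 1) i fun l => if (j : ℕ) = l + 1 then S else 0).trans (if_pos hi)),
        (Finset.sum_congr rfl fun l _ => ?_).trans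
        ((sum_val (k + 1) j fun l => if l = i + 1 then S else 0).trans (if_pos hj))]
      · simp only [eq_comm (a := (j : ℕ))]
        split_ifs <;> simp
      · split_ifs <;> simp
    · simp only [cY]
      rw [blk_mul_bcol, zero_add]
      congr 1
      funext i
      have hi := i.2
      rw [← (sum_val (k + 1) i fun l => if l + 1 = k + 1 then b' ^ (k + 1) else 0).trans
        (if_pos hi)]
      refine Finset.sum_congr rfl fun l _ => ?_
      split_ifs <;> simp [hY]

omit [Fintype α] [Fintype β] [DecidableEq β] in
theorem comb_map {F : Type} [CommSemiring F] (φ : K →+* F) (k : ℕ) (c : ℕ → Matrix α α K)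
    (Y : Matrix α β K) (Z : Matrix β α K) (W : Matrix β β K) :
    (comb k c Y Z W).map φ = comb k (fun i => (c i).map φ) (Y.map φ) (Z.map φ) (W.map φ) := by
  ext (⟨i, x⟩ | x) (⟨j, y⟩ | y)
  · simp only [comb, cX, blk, cx, map_apply, fromBlocks_apply₁₁, Matrix.add_apply, map_add]
    congr 1
    · split_ifs <;> simp
    · split_ifs <;> simp [Matrix.one_apply]
  · simp only [comb, cY, bcol, map_apply, fromBlocks_apply₁₂]
    split_ifs <;> simp
  · simp only [comb, cZ, brow, map_apply, fromBlocks_apply₂₁]
    split_ifs <;> simp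
  · rfl

end Pool.Agent.MP_993212_an.H57
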