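import Pool.Agent.MP_993212_an.H57.Rigid

/-! Families with a constant pattern of zeros can be made positive. -/

namespace Pool.Agent.MP_993212_an.H57

open Matrix Filter Topology Relation

variable {U : Subring ℝ} {α β : Type} [Fintype α] [DecidableEq α] [Fintype β] [DecidableEq β]

/-- positive on the unit interval -/
def pos (f : Fam U) : Prop := ∀ t ∈ Set.Icc (0 : ℝ) 1, 0 < ev U t f

theorem not_pos_zero : ¬ pos (0 : Fam U) := fun h => by
  simpa using h 0 (Set.left_mem_Icc.2 zero_le_one)

theorem pos.mul {f g : Fam U} (hf : pos f) (hg : pos g) : pos (f * g) := fun t ht => by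
  rw [map_mul]
  exact mul_pos (hf t ht) (hg t ht)

theorem pos_one : pos (1 : Fam U) := fun t _ => by simp

theorem pos_cst {x : U} (h : 0 < (x : ℝ)) : pos (cst U x) := fun _ _ => h

/-- positive on the unit interval or identically zero -/
def NN (U : Subring ℝ) : Subsemiring (Fam U) where
  carrier := {f | pos f ∨ f = 0}
  mul_mem' := by
    rintro a b (ha | rfl) (hb | rfl)
    · exact Or.inl (ha.mul hb)
    all_goals exact Or.inr (by simp)
  one_mem' := Or.inl pos_one
  add_mem' := by
    rintro a b (ha | rfl) (hb | rfl)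
    · refine Or.inl fun t ht => ?_
      rw [map_add]
      exact add_pos (ha t ht) (hb t ht)
    · exact Or.inl (by simpa using ha)
    · exact Or.inl (by simpa using hb)
    · exact Or.inr (by simp)
  zero_mem' := Or.inr rfl

theorem pos.nn {f : Fam U} (h : pos f) : f ∈ NN U := Or.inl h

theorem nn_nonneg {f : Fam U} (h : f ∈ NN U) {t : ℝ} (ht : t ∈ Set.Icc (0 : ℝ) 1) :
    0 ≤ ev U t f := by
  rcases h with h | rfl
  · exact (h t ht).le
  · simp

theorem pos.add_nn {f g : Fam U} (hf : pos f) (hg : g ∈ NN U) : pos (f + g) := fun t ht => by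
  rw [map_add]
  exact add_pos_of_pos_of_nonneg (hf t ht) (nn_nonneg hg ht)

theorem pos.nn_add {f g : Fam U} (hf : pos f) (hg : g ∈ NN U) : pos (g + f) :=
  add_comm f g ▸ hf.add_nn hg

theorem nn_cst {x : U} (h : 0 ≤ (x : ℝ)) : cst U x ∈ NN U := by
  rcases h.lt_or_eq with h | h
  · exact Or.inl (pos_cst h)
  · rw [show x = 0 from Subtype.ext h.symm, map_zero]
    exact (NN U).zero_mem

theorem ev_up {f : Fam U} (h : f ∈ NN U) {t : ℝ} (ht : t ∈ Set.Icc (0 : ℝ) 1) (htU : t ∈ U) :
    ev U t f ∈ UP U := ⟨ev_mem f htU, nn_nonneg h ht⟩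

theorem pos.arch {f : Fam U} (hf : pos f) (g : Fam U) :
    ∀ᶠ e in 𝓝 (0 : ℝ), ∀ t ∈ Set.Icc (0 : ℝ) 1, 0 < ev U t f - e * ev U t g := by
  refine isCompact_Icc.eventually_forall_of_forall_eventually fun t ht => ?_
  have hc : Continuous fun z : ℝ × ℝ => ev U z.2 f - z.1 * ev U z.2 g :=
    ((ev_cont f).comp continuous_snd).sub (continuous_fst.mul ((ev_cont g).comp continuous_snd))
  exact hc.continuousAt.eventually (lt_mem_nhds (by simpa using hf t ht))

theorem col_move (hU : Small U) {X : Matrix α α (Fam U)} (hX : In (NN U) X) (w : α) (D : Finset α)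
    (hw : w ∉ D) (hD : ∀ u ∈ D, ∀ z, pos (X z u) → pos (X z w)) :
    ∃ X' : Matrix α α (Fam U), SSE (NN U) X X' ∧ (∀ i j, pos (X i j) → pos (X' i j)) ∧
      ∀ u ∈ D, ∀ z, pos (X w z) → pos (X' u z) := by
  obtain ⟨e, he, heU, -, hp⟩ := hU (fun e => ∀ z, pos (X z w) → ∀ t ∈ Set.Icc (0 : ℝ) 1,
      0 < ev U t (X z w) - e * ev U t (∑ u ∈ D, X z u)) (eventually_all.2 fun z => by
    by_cases h : pos (X z w)
    · exact (h.arch _).mono fun e he _ => he
    · exact Eventually.of_forall fun e h' => absurd h' h)
  let δ : Fam U := cst U ⟨e, heU⟩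
  have hδ : pos δ := pos_cst he
  let N : Matrix α α (Fam U) := fun u v => if u ∈ D ∧ v = w then δ else 0
  have hN : In (NN U) N := fun u v => by
    simp only [N]
    split_ifs
    exacts [hδ.nn, (NN U).zero_mem]
  have hXN : ∀ z v, (X * N) z v = if v = w then δ * ∑ u ∈ D, X z u else 0 := by
    intro z v
    rw [Matrix.mul_apply]
    by_cases h : v = w
    · simp [N, h, Finset.sum_mul, mul_comm]
    · simp [N, h]
  have hNN : N * N = 0 := by
    ext1 u v
    rw [Matrix.mul_apply]
    refine Finset.sum_eq_zero fun a _ => ?_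
    by_cases h : a = w
    · simp [N, h, hw]
    · simp [N, h]
  have h1 : ∀ i j, pos (X i j) → pos ((X - X * N) i j) := by
    intro i j h
    rw [Matrix.sub_apply, hXN]
    split_ifs with hj
    · subst hj
      intro t ht
      rw [map_sub, map_mul]
      exact hp i h t ht
    · rwa [sub_zero]
  have h2 : In (NN U) (X - X * N) := by
    intro i j
    rcases hX i j with h | h
    · exact (h1 i j h).nn
    · rw [Matrix.sub_apply, hXN, h]
      split_ifs with hj
      · subst hj
        rw [Finset.sum_eq_zero fun u hu => (hX i u).resolve_left fun h' =>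
          not_pos_zero (h ▸ hD u hu i h')]
        simp
      · simp
  refine ⟨(1 + N) * (X - X * N), SSE.step' _ _ h2 (In.one.add hN) ?_ rfl, fun i j h => ?_,
    fun u hu z h => ?_⟩
  · rw [Matrix.mul_add, Matrix.mul_one, Matrix.sub_mul, Matrix.mul_assoc, hNN, Matrix.mul_zero,
      sub_zero, sub_add_cancel]
  · rw [Matrix.add_mul, Matrix.one_mul]
    exact (h1 i j h).add_nn (hN.mul h2 i j)
  · rw [Matrix.add_mul, Matrix.one_mul, Matrix.add_apply]
    refine pos.nn_add ?_ (h2 u z)
    rw [Matrix.mul_apply, Finset.sum_eq_single w (fun b _ hb => by simp [N, hb]) (by simp)]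
    simpa [N, hu] using hδ.mul (h1 w z h)

theorem rtg_mono {γ : Type} {r p : γ → γ → Prop} (h : ∀ a b, r a b → p a b) {a b : γ}
    (hab : ReflTransGen r a b) : ReflTransGen p a b := by
  induction hab with
  | refl => exact .refl
  | tail _ h2 ih => exact ih.tail (h _ _ h2)

theorem rtg_swap {γ : Type} {r p : γ → γ → Prop} (h : ∀ a b, r a b → p b a) {a b : γ}
    (hab : ReflTransGen r a b) : ReflTransGen p b a := by
  induction hab with
  | refl => exact .refl
  | tail _ h2 ih => exact ih.head (h _ _ h2)

theorem exists_cross {γ : Type} {r : γ → γ → Prop} {p : γ → Prop} {a b : γ}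
    (h : ReflTransGen r a b) (ha : p a) (hb : ¬ p b) : ∃ x y, p x ∧ ¬ p y ∧ r x y := by
  induction h with
  | refl => exact absurd ha hb
  | @tail c d _ h2 ih =>
    by_cases hc : p c
    · exact ⟨c, d, hc, hb, h2⟩
    · exact ih hc

open Classical in
theorem fill_col (hU : Small U) (w : α) (n : ℕ) : ∀ X : Matrix α α (Fam U), In (NN U) X →
    (∀ i, pos (X i w)) → (∀ z, ReflTransGen (fun i j => pos (X i j)) w z) →
    (Finset.univ.filter fun z => ¬ ∀ i, pos (X i z)).card ≤ n →
    ∃ X' : Matrix α α (Fam U), SSE (NN U) X X' ∧ ∀ i j, pos (X' i j) := by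
  induction n with
  | zero =>
    intro X _ _ _ hc
    refine ⟨X, SSE.refl X, fun i j => ?_⟩
    have := Finset.filter_eq_empty_iff.1 (Finset.card_eq_zero.1 (Nat.le_zero.1 hc))
      (Finset.mem_univ j)
    exact not_not.1 this i
  | succ n ih =>
    intro X hX hw hr hc
    by_cases hall : ∀ z i, pos (X i z)
    · exact ⟨X, SSE.refl X, fun i j => hall j i⟩
    obtain ⟨z, hz⟩ := not_forall.1 hall
    obtain ⟨a, b, ha, hb, hab⟩ := exists_cross (p := fun z => ∀ i, pos (X i z)) (hr z) hw hz
    obtain ⟨X', s1, s2, s3⟩ := col_move hU hX a (Finset.univ.erase a) (by simp)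
      fun _ _ z _ => ha z
    obtain ⟨X'', s4, s5⟩ := ih X' (s1.in hX) (fun i => s2 _ _ (hw i))
      (fun z => rtg_mono s2 (hr z)) (by
        refine Nat.le_of_lt_succ (lt_of_lt_of_le (Finset.card_lt_card ⟨fun y hy => ?_,
          fun hs => ?_⟩) hc)
        · simp only [Finset.mem_filter, Finset.mem_univ, true_and] at hy ⊢
          exact fun h => hy fun i => s2 _ _ (h i)
        · have := hs (Finset.mem_filter.2 ⟨Finset.mem_univ b, hb⟩)
          refine (Finset.mem_filter.1 this).2 fun i => ?_
          by_cases hi : i = a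
          · exact hi ▸ s2 _ _ hab
          · exact s3 i (by simp [hi]) b hab)
    exact ⟨X'', s1.trans s4, s5⟩

open Classical in
theorem fill_row (hU : Small U) (n : ℕ) : ∀ {α : Type} [Fintype α] [DecidableEq α]
    (X : Matrix α α (Fam U)) (o : α), In (NN U) X → pos (X o o) →
    (∀ a b, ReflTransGen (fun i j => pos (X i j)) a b) →
    (Finset.univ.filter fun z => ¬ pos (X o z)).card ≤ n →
    ∃ (β : Type) (_ : Fintype β) (_ : DecidableEq β) (X' : Matrix β β (Fam U)) (o' : β),
      SSE (NN U) X X' ∧ (∀ a b, ReflTransGen (fun i j => pos (X' i j)) a b) ∧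
      ∀ z, pos (X' o' z) := by
  induction n with
  | zero =>
    intro α _ _ X o _ _ hr hc
    refine ⟨α, inferInstance, inferInstance, X, o, SSE.refl X, hr, fun j => ?_⟩
    exact not_not.1 (Finset.filter_eq_empty_iff.1 (Finset.card_eq_zero.1 (Nat.le_zero.1 hc))
      (Finset.mem_univ j))
  | succ n ih =>
    intro α _ _ X o hX ho hr hc
    by_cases hall : ∀ z, pos (X o z)
    · exact ⟨α, inferInstance, inferInstance, X, o, SSE.refl X, hr, hall⟩
    obtain ⟨z0, hz⟩ := not_forall.1 hall
    obtain ⟨v, z, hv, hz, hvz⟩ : ∃ v z, pos (X o v) ∧ ¬ pos (X o z) ∧ pos (X v z) :=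
      exists_cross (p := fun z => pos (X o z)) (hr o z0) ho hz
    obtain ⟨e, he, heU, -, hp⟩ := hU (fun e => e < 1) (eventually_lt_nhds one_pos)
    let δ : Fam U := cst U ⟨e, heU⟩
    have hδ : pos δ := pos_cst he
    have hδ' : pos (1 - δ) := fun t _ => by
      rw [map_sub, map_one]
      exact sub_pos.2 hp
    let Y : Matrix α (Option α) (Fam U) := fun i b => match b with
      | none => if i = o then δ * X o o else 0
      | some j => if i = o ∧ j = o then (1 - δ) * X o o else X i j
    let D : Matrix (Option α) α (Fam U) := fun a j => if a.getD o = j then 1 else 0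
    have hY1 : ∀ i j, pos (X i j) → pos (Y i (some j)) := fun i j h => by
      simp only [Y]
      split_ifs
      exacts [hδ'.mul ho, h]
    have hY2 : pos (Y o none) := by simpa [Y] using hδ.mul ho
    have hY : In (NN U) Y := by
      rintro i (_ | j)
      · simp only [Y]
        split_ifs
        exacts [(hδ.mul ho).nn, (NN U).zero_mem]
      · simp only [Y]
        split_ifs
        exacts [(hδ'.mul ho).nn, hX i j]
    have hD : In (NN U) D := fun a j => by
      simp only [D]
      split_ifs
      exacts [(NN U).one_mem, (NN U).zero_mem]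
    have hYD : Y * D = X := by
      ext1 i j
      rw [Matrix.mul_apply, Fintype.sum_option]
      simp only [D, Y, Option.getD_none, Option.getD_some, mul_ite, mul_one, mul_zero,
        Finset.sum_ite_eq', Finset.mem_univ, if_true]
      by_cases hi : i = o <;> by_cases hj : j = o
      · simp [hi, hj]
        ring
      · simp [hi, hj, Ne.symm hj]
      · simp [hi, hj]
      · simp [hi, hj, Ne.symm hj]
    have hDY : ∀ a b, (D * Y) a b = Y (a.getD o) b := fun a b => by
      rw [Matrix.mul_apply]
      simp [D]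
    have s0 : SSE (NN U) X (D * Y) := SSE.step' Y D hY hD hYD rfl
    obtain ⟨X', s1, s2, s3⟩ := col_move hU (s0.in hX) (some v) {none} (by simp) (by
      intro u hu a ha
      rw [Finset.mem_singleton.1 hu, hDY] at ha
      rw [hDY]
      have : a.getD o = o := by
        by_contra h
        exact not_pos_zero (by simpa [Y, h] using ha)
      rw [this]
      exact hY1 _ _ hv)
    have t1 : ∀ (a : Option α) j, pos (X (a.getD o) j) → pos (X' a (some j)) := fun a j h =>
      s2 _ _ (by rw [hDY]; exact hY1 _ _ h)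
    have t2 : ∀ a : Option α, a.getD o = o → pos (X' a none) := fun a h =>
      s2 _ _ (by rw [hDY, h]; exact hY2)
    obtain ⟨β, _, _, X'', o', s4, s5⟩ := ih X' none ((s0.trans s1).in hX) (t2 none rfl) (by
      intro a b
      have u1 : ReflTransGen (fun i j => pos (X' i j)) a (some (a.getD o)) := by
        cases a with
        | none => exact .single (t1 none o ho)
        | some a => exact .refl
      have u2 : ReflTransGen (fun i j => pos (X' i j)) (some (b.getD o)) b := by
        cases b with
        | none => exact .single (t2 (some o) rfl)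
        | some b => exact .refl
      exact (u1.trans ((hr _ _).lift some fun i j h => t1 (some i) j h)).trans u2) (by
      have hsub : (Finset.univ.filter fun b => ¬ pos (X' none b)) ⊆
          ((Finset.univ.filter fun z => ¬ pos (X o z)).erase z).image some := by
        rintro (_ | j) hj
        · exact absurd (t2 none rfl) (Finset.mem_filter.1 hj).2
        · refine Finset.mem_image.2 ⟨j, Finset.mem_erase.2 ⟨?_, Finset.mem_filter.2
            ⟨Finset.mem_univ _, fun h => (Finset.mem_filter.1 hj).2 (t1 none j h)⟩⟩, rfl⟩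
          rintro rfl
          exact (Finset.mem_filter.1 hj).2 (s3 none (by simp) _ (by rw [hDY]; exact hY1 _ _ hvz))
      have h1 := (Finset.card_le_card hsub).trans Finset.card_image_le
      rw [Finset.card_erase_of_mem (by simpa using hz)] at h1
      omega)
    exact ⟨β, inferInstance, inferInstance, X'', o', (s0.trans s1).trans s4, s5⟩

theorem transGen_pos {A : Matrix α α ℝ} (hA : ∀ i j, 0 ≤ A i j) (k : ℕ) :
    ∀ i j, 0 < (A ^ k) i j → ReflTransGen (fun i j => 0 < A i j) i j := by
  induction k with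
  | zero =>
    intro i j h
    rw [pow_zero, Matrix.one_apply] at h
    have : i = j := by
      by_contra h'
      simp [h'] at h
    exact this ▸ .refl
  | succ k ih =>
    intro i j h
    rw [pow_succ, Matrix.mul_apply] at h
    obtain ⟨a, -, ha⟩ := Finset.exists_ne_zero_of_sum_ne_zero h.ne'
    exact (ih i a (lt_of_le_of_ne (Matrix.pow_apply_nonneg hA k i a)
      (left_ne_zero_of_mul ha).symm)).tail (lt_of_le_of_ne (hA a j) (right_ne_zero_of_mul ha).symm)

/-- an irreducible matrix with a loop is equivalent to a positive matrix -/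
theorem make_pos (hU : Small U) {A : Matrix α α ℝ} (hA : In (UP U) A) (o : α) (ho : 0 < A o o)
    (hr : ∀ i j, ∃ k, 0 < (A ^ k) i j) :
    ∃ (β : Type) (_ : Fintype β) (_ : DecidableEq β) (_ : Nonempty β) (A' : Matrix β β ℝ),
      SSE (UP U) A A' ∧ PosM A' := by
  let X : Matrix α α (Fam U) := fun i j => cst U ⟨A j i, (hA j i).1⟩
  have hX : In (NN U) X := fun i j => nn_cst (hA j i).2
  obtain ⟨β, _, _, X', o', s1, s2, s3⟩ := fill_row hU _ X o hX (pos_cst ho) (fun a b => by
    obtain ⟨k, hk⟩ := hr b a
    exact rtg_swap (fun i j h => pos_cst h) (transGen_pos hA.nonneg k b a hk)) le_rfl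
  obtain ⟨X'', s4, s5⟩ := fill_col hU o' _ X'ᵀ (s1.in hX).transpose s3
    (fun z => rtg_swap (fun _ _ h => h) (s2 z o')) le_rfl
  have h0 : (0 : ℝ) ∈ Set.Icc (0 : ℝ) 1 := Set.left_mem_Icc.2 zero_le_one
  exact ⟨β, inferInstance, inferInstance, ⟨o'⟩, X''.map (ev U 0),
    (s1.transpose.trans s4).map (ev U 0) fun x hx => ev_up hx h0 U.zero_mem,
    fun i j => s5 i j 0 h0⟩

end Pool.Agent.MP_993212_an.H57
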