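import Pool.Agent.MP_993212_an.H57.Main
import Pool.Agent.MP_993212_an.H12.Basic

/-! The ring of fractions with denominators a power of `p`; clearing denominators. -/

namespace Pool.Agent.MP_993212_an.H57

open Matrix Filter Topology Relation

/-- the reals that become integers after multiplication by a power of `p` -/
def Zp (p : ℕ) : Subring ℝ where
  carrier := {x | ∃ (e : ℕ) (z : ℤ), (p : ℝ) ^ e * x = z}
  mul_mem' := by
    rintro a b ⟨e, z, h⟩ ⟨e', z', h'⟩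
    exact ⟨e + e', z * z', by push_cast; rw [← h, ← h']; ring⟩
  one_mem' := ⟨0, 1, by simp⟩
  add_mem' := by
    rintro a b ⟨e, z, h⟩ ⟨e', z', h'⟩
    exact ⟨e + e', p ^ e' * z + p ^ e * z', by push_cast; rw [← h, ← h']; ring⟩
  zero_mem' := ⟨0, 0, by simp⟩
  neg_mem' := by
    rintro a ⟨e, z, h⟩
    exact ⟨e, -z, by push_cast; rw [← h]; ring⟩

theorem inv_mem_Zp {p : ℕ} (hp : 2 ≤ p) : (p : ℝ)⁻¹ ∈ Zp p :=
  ⟨1, 1, by
    have : (p : ℝ) ≠ 0 := by positivity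
    simp [this]⟩

theorem small_Zp {p : ℕ} (hp : 2 ≤ p) : Small (Zp p) :=
  small_of_unit (u := (p : ℝ)⁻¹) (by positivity)
    (inv_lt_one_of_one_lt₀ (by exact_mod_cast hp)) (inv_mem_Zp hp)
    (by rw [inv_inv]; exact natCast_mem _ p)

theorem pid_Zp {p : ℕ} (hp : 2 ≤ p) : IsPrincipalIdealRing (Zp p) := by
  refine ⟨fun I => ?_⟩
  obtain ⟨d, hd⟩ := (IsPrincipalIdealRing.principal (I.comap (Int.castRingHom (Zp p)))).principal
  refine ⟨(d : Zp p), le_antisymm (fun x hx => ?_) ?_⟩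
  · obtain ⟨e, z, h⟩ := x.2
    have hz : (z : Zp p) = (p : Zp p) ^ e * x := Subtype.ext (by simp [h])
    have h1 : z ∈ I.comap (Int.castRingHom (Zp p)) := by
      rw [Ideal.mem_comap, eq_intCast, hz]
      exact I.mul_mem_left _ hx
    rw [hd] at h1
    obtain ⟨c, rfl⟩ := Submodule.mem_span_singleton.1 h1
    refine Submodule.mem_span_singleton.2 ⟨⟨(p : ℝ)⁻¹, inv_mem_Zp hp⟩ ^ e * c, Subtype.ext ?_⟩
    have h0 : (p : ℝ) ^ e ≠ 0 := by positivity
    simp only [smul_eq_mul, Int.cast_mul] at h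
    simp only [smul_eq_mul, Subring.coe_mul, SubmonoidClass.coe_pow, Subring.coe_intCast, inv_pow]
    rw [mul_assoc, ← h, inv_mul_cancel_left₀ h0]
  · rw [Submodule.span_singleton_le_iff_mem]
    have : d ∈ I.comap (Int.castRingHom (Zp p)) := hd ▸ Submodule.mem_span_singleton_self d
    simpa using this

theorem clear_entry {p : ℕ} {x : ℝ} (hx : x ∈ UP (Zp p)) :
    ∀ᶠ j in atTop, ∃ z : ℕ, (z : ℝ) = (p : ℝ) ^ j * x := by
  obtain ⟨⟨e, z, h⟩, h0⟩ := hx
  have hz : 0 ≤ z := by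
    have : (0 : ℝ) ≤ z := h ▸ mul_nonneg (by positivity) h0
    exact_mod_cast this
  lift z to ℕ using hz
  filter_upwards [eventually_ge_atTop e] with j hj
  obtain ⟨k, rfl⟩ := Nat.exists_eq_add_of_le hj
  refine ⟨p ^ k * z, ?_⟩
  push_cast at h ⊢
  rw [← h]
  ring

theorem clear_mat {p : ℕ} {m n : Type} [Finite m] [Finite n] {R : Matrix m n ℝ}
    (hR : In (UP (Zp p)) R) :
    ∀ᶠ j in atTop, ∃ R' : Matrix m n ℕ, R'.map (Nat.castRingHom ℝ) = (p : ℝ) ^ j • R := by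
  filter_upwards [eventually_all.2 fun i => eventually_all.2 fun j => clear_entry (hR i j)]
    with j hj
  choose R' hR' using hj
  exact ⟨R', by ext a b; exact hR' a b⟩

variable {α β : Type} [Fintype α] [DecidableEq α] [Fintype β] [DecidableEq β]

theorem cast_inj {m n : Type} {X Y : Matrix m n ℕ}
    (h : X.map (Nat.castRingHom ℝ) = Y.map (Nat.castRingHom ℝ)) : X = Y :=
  Matrix.map_injective (f := Nat.castRingHom ℝ) Nat.cast_injective h

theorem cast_smul {m n : Type} (c : ℕ) (X : Matrix m n ℕ) :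
    (c • X).map (Nat.castRingHom ℝ) = (c : ℝ) • X.map (Nat.castRingHom ℝ) := by
  ext i j
  simp

theorem clear_sse {p : ℕ} {A : Matrix α α ℕ} {B : Matrix β β ℕ}
    (h : SSE (UP (Zp p)) (A.map (Nat.castRingHom ℝ)) (B.map (Nat.castRingHom ℝ))) :
    ∃ j, H12.SSE (p ^ j • A) (p ^ j • B) := by
  have key := h (fun X _ _ W => ∀ᶠ j in atTop, ∃ W' : Matrix X X ℕ,
      W'.map (Nat.castRingHom ℝ) = (p : ℝ) ^ (j + j) • W ∧ H12.SSE (p ^ (j + j) • A) W') (by
    intro X Y _ _ _ _ R S hR hS hq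
    filter_upwards [hq, clear_mat hR, clear_mat hS]
    rintro j ⟨W', h1, h2⟩ ⟨R', h3⟩ ⟨S', h4⟩
    have : W' = R' * S' := cast_inj (by
      rw [h1, Matrix.map_mul, h3, h4, Matrix.smul_mul, Matrix.mul_smul, smul_smul, pow_add])
    refine ⟨S' * R', ?_, h2.trans (this ▸ H12.SSE.step R' S')⟩
    rw [Matrix.map_mul, h3, h4, Matrix.smul_mul, Matrix.mul_smul, smul_smul, pow_add])
    (Eventually.of_forall fun j => ⟨_, by rw [cast_smul]; simp, H12.SSE.refl _⟩)
  obtain ⟨j, W', h1, h2⟩ := key.exists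
  have : W' = p ^ (j + j) • B := cast_inj (by rw [h1, cast_smul]; simp)
  exact ⟨j + j, this ▸ h2⟩

theorem cast_in {U : Subring ℝ} {m n : Type} (X : Matrix m n ℕ) :
    In (UP U) (X.map (Nat.castRingHom ℝ)) := fun i j => natCast_mem _ (X i j)

omit [DecidableEq α] in
theorem exists_loop {A : Matrix α α ℕ} (h : 0 < A.trace) : ∃ a, 0 < A a a := by
  obtain ⟨a, -, ha⟩ := Finset.exists_ne_zero_of_sum_ne_zero h.ne'
  exact ⟨a, Nat.pos_of_ne_zero ha⟩

theorem stable {p : ℕ} (hp : 2 ≤ p) {A : Matrix α α ℕ} {B : Matrix β β ℕ}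
    (hA : ∀ i j, ∃ k, 0 < (A ^ k) i j) (hB : ∀ i j, ∃ k, 0 < (B ^ k) i j) (tA : 0 < A.trace)
    (tB : 0 < B.trace) :
    (∃ j, H12.SSE (p ^ j • A) (p ^ j • B)) ↔
      ∃ (l e : ℕ) (R : Matrix α β ℕ) (S : Matrix β α ℕ), 1 ≤ l ∧ p ^ e • A ^ l = R * S ∧
        p ^ e • B ^ l = S * R ∧ A * R = R * B ∧ S * A = B * S := by
  constructor
  · rintro ⟨j, h⟩
    obtain ⟨l, R, S, h0, h1, h2, h3, h4⟩ := h.se
    have hpj : p ^ j ≠ 0 := by positivity
    refine ⟨l, j * l, R, S, h0, by rw [← h1, smul_pow, pow_mul], by rw [← h2, smul_pow, pow_mul],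
      ?_, ?_⟩
    · rw [Matrix.smul_mul, Matrix.mul_smul] at h3
      exact smul_right_injective _ hpj h3
    · rw [Matrix.smul_mul, Matrix.mul_smul] at h4
      exact smul_right_injective _ hpj h4
  · rintro ⟨l, e, R, S, h0, h1, h2, h3, h4⟩
    obtain ⟨l, rfl⟩ := Nat.exists_eq_add_of_le' h0
    obtain ⟨a, ha⟩ := exists_loop tA
    obtain ⟨b, hb⟩ := exists_loop tB
    have := pid_Zp hp
    have h0 : (p : ℝ) ^ e ≠ 0 := by positivity
    refine clear_sse (main (small_Zp hp) (cast_in A) (cast_in B) (fun i j => ?_) (fun i j => ?_)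
      a (by simpa using ha) b (by simpa using hb) ⟨l, (p : ℝ)⁻¹ ^ e • R.map (Nat.castRingHom ℝ),
        S.map (Nat.castRingHom ℝ), In.smul (pow_mem (show (p : ℝ)⁻¹ ∈ UP (Zp p) from
          ⟨inv_mem_Zp hp, show (0 : ℝ) ≤ _ by positivity⟩) e) (cast_in R), cast_in S,
        ?_, ?_, ?_, ?_⟩)
    · obtain ⟨k, hk⟩ := hA i j
      exact ⟨k, by rw [← map_pow']; simpa using hk⟩
    · obtain ⟨k, hk⟩ := hB i j
      exact ⟨k, by rw [← map_pow']; simpa using hk⟩
    · rw [Matrix.smul_mul, ← Matrix.map_mul, ← h1, cast_smul, map_pow', smul_smul]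
      simp [h0]
    · rw [Matrix.mul_smul, ← Matrix.map_mul, ← h2, cast_smul, map_pow', smul_smul]
      simp [h0]
    · rw [Matrix.mul_smul, Matrix.smul_mul, ← Matrix.map_mul, ← Matrix.map_mul, h3]
    · rw [← Matrix.map_mul, ← Matrix.map_mul, h4]

end Pool.Agent.MP_993212_an.H57
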