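import Pool.Agent.MP_993212_an.H57.Basic

/-! Postponing a level preserving factor through strictly level increasing matrices. -/

namespace Pool.Agent.MP_993212_an.H57

open Matrix

variable {K : Type} [CommSemiring K] {α β : Type} [Fintype α] [DecidableEq α] [Fintype β]
  [DecidableEq β]

/-- projection on the indices whose level satisfies `p` -/
def prj (K : Type) [CommSemiring K] {α : Type} [DecidableEq α] (lv : α → ℕ) (p : ℕ → Prop)
    [DecidablePred p] : Matrix α α K := diagonal fun x => if p (lv x) then 1 else 0

theorem prj_mul {γ : Type} (lv : α → ℕ) (p : ℕ → Prop) [DecidablePred p] (M : Matrix α γ K)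
    (i : α) (j : γ) : (prj K lv p * M) i j = if p (lv i) then M i j else 0 := by
  simp [prj, diagonal_mul]

theorem mul_prj {γ : Type} (lv : α → ℕ) (p : ℕ → Prop) [DecidablePred p] (M : Matrix γ α K)
    (i : γ) (j : α) : (M * prj K lv p) i j = if p (lv j) then M i j else 0 := by
  simp [prj, mul_diagonal]

omit [Fintype α] in
theorem prj_apply (lv : α → ℕ) (p : ℕ → Prop) [DecidablePred p] (i j : α) :
    prj K lv p i j = if i = j ∧ p (lv i) then 1 else 0 := by
  simp only [prj, diagonal_apply]
  by_cases h : i = j <;> simp [h]

theorem level_move (la : α → ℕ) (lb : β → ℕ) (S : Matrix β α K) (E : Matrix α β K)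
    (FA : Matrix α α K) (FB : Matrix β β K) (hS : ∀ y x, S y x ≠ 0 → lb y = la x)
    (hA : ∀ x x', FA x x' ≠ 0 → la x < la x') (hB : ∀ y y', FB y y' ≠ 0 → lb y < lb y')
    (hc : S * FA = FB * S) : SSE ⊤ (FA + E * S) (FB + S * E) := by
  let p : ℕ → Matrix α α K := fun r => prj K la (r ≤ ·)
  let q : ℕ → Matrix β β K := fun r => prj K lb (· < r)
  let c : ℕ → Matrix β β K := fun r => prj K lb (r ≤ ·)
  let π : ℕ → Matrix β β K := fun r => prj K lb (· = r)
  let out : ℕ → Matrix (α ⊕ β) β K := fun r => fromRows (p r * E) (q r * (FB + S * E))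
  let land : ℕ → Matrix β (α ⊕ β) K := fun r => fromCols (c r * S) (q r)
  let Kr : ℕ → Matrix (α ⊕ β) (α ⊕ β) K := fun r => out r * land r + fromBlocks (p r * FA) 0 0 0
  have hS' : ∀ y x, lb y ≠ la x → S y x = 0 := fun y x h => by
    by_contra h'
    exact h (hS y x h')
  have hA' : ∀ x x', la x' ≤ la x → FA x x' = 0 := fun x x' h => by
    by_contra h'
    exact absurd (hA x x' h') (by omega)
  have hB' : ∀ y y', lb y' ≤ lb y → FB y y' = 0 := fun y y' h => by
    by_contra h'
    exact absurd (hB y y' h') (by omega)
  have step : ∀ r, SSE ⊤ (Kr r) (Kr (r + 1)) := by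
    intro r
    have f1 : c (r + 1) * S * p (r + 1) + q (r + 1) * (π r * S) = c r * S := by
      ext y x
      simp only [c, p, q, π, Matrix.add_apply, mul_prj, prj_mul]
      by_cases h : lb y = la x
      · split_ifs <;> first | omega | simp
      · simp [hS' y x h]
    have f2 : q (r + 1) * q r = q r := by
      ext y x
      simp only [q, prj_mul, prj_apply]
      by_cases h : y = x
      · simp only [h, true_and]
        split_ifs <;> first | omega | simp
      · simp [h]
    have f3 : p r * FA * p (r + 1) = p r * FA := by
      ext x x'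
      simp only [p, mul_prj, prj_mul]
      by_cases h : la x' ≤ la x
      · simp [hA' x x' h]
      · split_ifs <;> first | omega | simp
    have f4 : p (r + 1) * p r = p (r + 1) := by
      ext y x
      simp only [p, prj_mul, prj_apply]
      by_cases h : y = x
      · simp only [h, true_and]
        split_ifs <;> first | omega | simp
      · simp [h]
    have f5 : π r * S * p r = π r * S := by
      ext y x
      simp only [p, π, mul_prj, prj_mul]
      by_cases h : lb y = la x
      · split_ifs <;> first | omega | simp
      · simp [hS' y x h]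
    have f6 : q r * q r = q r := by
      ext y x
      simp only [q, prj_mul, prj_apply]
      by_cases h : y = x
      · simp only [h, true_and]
        split_ifs <;> first | omega | simp
      · simp [h]
    have f7 : q (r + 1) = q r + π r := by
      ext y x
      simp only [q, π, prj_apply, Matrix.add_apply]
      by_cases h : y = x
      · simp only [h, true_and]
        split_ifs <;> first | omega | simp
      · simp [h]
    have f8 : π r * FB * c (r + 1) = π r * FB := by
      ext x x'
      simp only [c, π, mul_prj, prj_mul]
      by_cases h : lb x' ≤ lb x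
      · simp [hB' x x' h]
      · split_ifs <;> first | omega | simp
    have f9 : π r * FB * q (r + 1) = 0 := by
      ext x x'
      simp only [q, π, mul_prj, prj_mul, Matrix.zero_apply]
      by_cases h : lb x' ≤ lb x
      · simp [hB' x x' h]
      · split_ifs <;> first | omega | simp
    refine SSE.step' (out r * land (r + 1) + fromBlocks (p r * FA) 0 0 0)
      (fromBlocks (p (r + 1)) 0 (π r * S) (q r)) (In.top _) (In.top _) ?_ ?_
    · rw [Matrix.add_mul, Matrix.mul_assoc]
      simp only [Kr, land, fromCols_mul_fromBlocks, fromBlocks_multiply, Matrix.mul_zero,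
        Matrix.zero_mul, add_zero, zero_add, f1, f2, f3]
    · rw [Matrix.mul_add, ← Matrix.mul_assoc]
      have g1 : out (r + 1) = fromBlocks (p (r + 1)) 0 (π r * S) (q r) * out r +
          fromRows 0 (π r * FB) := by
        simp only [out, fromBlocks_mul_fromRows, ← Matrix.mul_assoc, f4, f5, f6, Matrix.zero_mul,
          add_zero]
        ext (i | i) j
        · simp
        · simp only [Matrix.add_apply, fromRows_apply_inr, f7, Matrix.add_mul, Matrix.mul_add,
            Matrix.mul_assoc]
          ring
      simp only [Kr]
      rw [g1, Matrix.add_mul, add_assoc]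
      congr 1
      simp only [land, fromRows_mul_fromCols, fromBlocks_multiply, Matrix.mul_zero,
        Matrix.zero_mul, add_zero, zero_add, fromBlocks_add, ← Matrix.mul_assoc, f4, f5, f8, f9]
      rw [Matrix.mul_assoc, hc, Matrix.mul_assoc]
  have all : ∀ r, SSE ⊤ (Kr 0) (Kr r) := by
    intro r
    induction r with
    | zero => exact SSE.refl _
    | succ r ih => exact ih.trans (step r)
  obtain ⟨N, hNa, hNb⟩ : ∃ N, (∀ x, la x < N) ∧ ∀ y, lb y < N := by
    refine ⟨∑ x, la x + ∑ y, lb y + 1, fun x => ?_, fun y => ?_⟩
    · have := Finset.single_le_sum (f := la) (fun _ _ => Nat.zero_le _) (Finset.mem_univ x)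
      omega
    · have := Finset.single_le_sum (f := lb) (fun _ _ => Nat.zero_le _) (Finset.mem_univ y)
      omega
  have p0 : p 0 = 1 := by
    ext i j
    simp [p, prj_apply, Matrix.one_apply]
  have q0 : q 0 = 0 := by
    ext i j
    simp [q, prj_apply]
  have c0 : c 0 = 1 := by
    ext i j
    simp [c, prj_apply, Matrix.one_apply]
  have pN : p N = 0 := by
    ext i j
    simp [p, prj_apply, Nat.not_le.2 (hNa i)]
  have qN : q N = 1 := by
    ext i j
    simp [q, prj_apply, Matrix.one_apply, hNb i]
  have cN : c N = 0 := by
    ext i j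
    simp [c, prj_apply, Nat.not_le.2 (hNb i)]
  have s0 : SSE ⊤ (FA + E * S) (Kr 0) :=
    SSE.step' (fromCols 1 (0 : Matrix α β K)) (fromRows (FA + E * S) 0) (In.top _) (In.top _)
      (by simp [fromCols_mul_fromRows])
      (by
        simp only [Kr, out, land, p0, q0, c0, fromRows_mul_fromCols, fromBlocks_add]
        simp [add_comm])
  have sN : SSE ⊤ (Kr N) (FB + S * E) :=
    SSE.step' (fromRows (0 : Matrix α β K) (FB + S * E)) (fromCols 0 1) (In.top _) (In.top _)
      (by
        simp only [Kr, out, land, pN, qN, cN, fromRows_mul_fromCols, fromBlocks_add]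
        simp)
      (by simp [fromCols_mul_fromRows])
  exact s0.trans ((all N).trans sN)

end Pool.Agent.MP_993212_an.H57
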