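import Pool.Agent.MP_993212_an.H57.Basic

/-! Local moves near a positive real matrix. -/

namespace Pool.Agent.MP_993212_an.H57

open Matrix Filter Topology

/-- the nonnegative elements of a subring of the reals -/
def UP (U : Subring ℝ) : Subsemiring ℝ := U.toSubsemiring ⊓ Subsemiring.nonneg ℝ

/-- entries in `U` -/
abbrev InU (U : Subring ℝ) {m n : Type} (M : Matrix m n ℝ) : Prop := In U.toSubsemiring M

/-- all entries are positive -/
def PosM {m n : Type} (M : Matrix m n ℝ) : Prop := ∀ i j, 0 < M i j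

/-- `U` has arbitrarily small positive units -/
def Small (U : Subring ℝ) : Prop :=
  ∀ p : ℝ → Prop, (∀ᶠ e in 𝓝 (0 : ℝ), p e) → ∃ e, 0 < e ∧ e ∈ U ∧ e⁻¹ ∈ U ∧ p e

theorem small_of_unit {U : Subring ℝ} {u : ℝ} (h0 : 0 < u) (h1 : u < 1) (hu : u ∈ U)
    (hu' : u⁻¹ ∈ U) : Small U := by
  intro p hp
  obtain ⟨N, hN⟩ := ((tendsto_pow_atTop_nhds_zero_of_lt_one h0.le h1).eventually hp).exists
  exact ⟨u ^ N, pow_pos h0 N, U.pow_mem hu N, inv_pow u N ▸ U.pow_mem hu' N, hN⟩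

section

variable {U : Subring ℝ} {l m n o : Type}

theorem InU.neg {A : Matrix m n ℝ} (h : InU U A) : InU U (-A) := fun i j => U.neg_mem (h i j)

theorem InU.sub {A B : Matrix m n ℝ} (hA : InU U A) (hB : InU U B) : InU U (A - B) :=
  fun i j => U.sub_mem (hA i j) (hB i j)

theorem InU.up {A : Matrix m n ℝ} (h : InU U A) (h' : PosM A) : In (UP U) A :=
  fun i j => ⟨h i j, (h' i j).le⟩

theorem In.inU {A : Matrix m n ℝ} (h : In (UP U) A) : InU U A := fun i j => (h i j).1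

theorem In.nonneg {A : Matrix m n ℝ} (h : In (UP U) A) (i : m) (j : n) : 0 ≤ A i j := (h i j).2

theorem isOpen_posM [Finite m] [Finite n] : IsOpen {M : Matrix m n ℝ | PosM M} := by
  simp only [PosM, Set.ofPred_forall]
  exact isOpen_iInter_of_finite fun i => isOpen_iInter_of_finite fun j =>
    isOpen_lt continuous_const (by fun_prop)

theorem PosM.ev [Finite m] [Finite n] {T : Type} [TopologicalSpace T] {f : T → Matrix m n ℝ}
    {x : T} (hf : Continuous f) (h : PosM (f x)) : ∀ᶠ y in 𝓝 x, PosM (f y) :=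
  hf.continuousAt.eventually (isOpen_posM.mem_nhds h)

theorem PosM.mul [Fintype m] [Nonempty m] {A : Matrix l m ℝ} {B : Matrix m n ℝ} (hA : PosM A)
    (hB : PosM B) : PosM (A * B) := fun i j => by
  rw [Matrix.mul_apply]
  exact Finset.sum_pos (fun k _ => mul_pos (hA i k) (hB k j)) Finset.univ_nonempty

theorem PosM.smul {c : ℝ} {A : Matrix m n ℝ} (hc : 0 < c) (hA : PosM A) : PosM (c • A) :=
  fun i j => mul_pos hc (hA i j)

theorem PosM.fromRows {A : Matrix l m ℝ} {C : Matrix o m ℝ} (hA : PosM A) (hC : PosM C) :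
    PosM (fromRows A C) := by
  rintro (i | i) j
  exacts [hA i j, hC i j]

theorem PosM.fromCols {A : Matrix l m ℝ} {B : Matrix l n ℝ} (hA : PosM A) (hB : PosM B) :
    PosM (fromCols A B) := by
  rintro i (j | j)
  exacts [hA i j, hB i j]

/-- the matrix of ones -/
def ones (m n : Type) : Matrix m n ℝ := fun _ _ => 1

theorem ones_pos : PosM (ones m n) := fun _ _ => one_pos

theorem ones_in : InU U (ones m n) := fun _ _ => U.one_mem

@[fun_prop]
theorem continuous_fromRows {T : Type} [TopologicalSpace T] {f : T → Matrix l m ℝ}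
    {g : T → Matrix o m ℝ} (hf : Continuous f) (hg : Continuous g) :
    Continuous fun x => fromRows (f x) (g x) := by
  refine continuous_matrix ?_
  rintro (i | i) j
  exacts [hf.matrix_elem i j, hg.matrix_elem i j]

@[fun_prop]
theorem continuous_fromCols {T : Type} [TopologicalSpace T] {f : T → Matrix l m ℝ}
    {g : T → Matrix l n ℝ} (hf : Continuous f) (hg : Continuous g) :
    Continuous fun x => fromCols (f x) (g x) := by
  refine continuous_matrix ?_
  rintro i (j | j)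
  exacts [hf.matrix_elem i j, hg.matrix_elem i j]

end

variable {U : Subring ℝ} {α β : Type} [Fintype α] [DecidableEq α] [Fintype β] [DecidableEq β]

/-- conjugation by a matrix near the identity -/
theorem near_conj (hU : Small U) {Y0 : Matrix α α ℝ} (h0 : PosM Y0) :
    ∀ᶠ z : Matrix α α ℝ × Matrix α α ℝ × Matrix α α ℝ in 𝓝 (Y0, 1, 1), InU U z.1 → InU U z.2.1 →
      InU U z.2.2 → z.2.2 * z.2.1 = 1 → SSE (UP U) z.1 (z.2.1 * z.1 * z.2.2) := by
  rcases isEmpty_or_nonempty α with hα | hα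
  · exact Eventually.of_forall fun z _ _ _ _ => SSE.of_eq (Subsingleton.elim _ _)
  obtain ⟨e, he, heU, -, hp⟩ := hU (fun e => PosM (Y0 - e • (Y0 * ones α α)))
    (PosM.ev (by fun_prop) (by simpa using h0))
  let P : Matrix α α ℝ → Matrix α (α ⊕ α) ℝ := fun Y =>
    fromCols (Y - e • (Y * ones α α)) ((e * e) • (Y * ones α α))
  let Q : Matrix (α ⊕ α) α ℝ := fromRows (1 + e • ones α α) (ones α α)
  have hPQ : ∀ Y, P Y * Q = Y := by
    intro Y
    simp only [P, Q, fromCols_mul_fromRows, Matrix.mul_add, Matrix.sub_mul, Matrix.mul_one,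
      Matrix.mul_smul, Matrix.smul_mul, smul_sub, smul_smul]
    abel
  have hP0 : PosM (P Y0) := hp.fromCols ((h0.mul ones_pos).smul (mul_pos he he))
  have hQ0 : PosM Q := by
    refine PosM.fromRows (fun i j => ?_) ones_pos
    simp only [Matrix.add_apply, Matrix.smul_apply, ones, smul_eq_mul, Matrix.one_apply]
    split_ifs <;> linarith
  have hPU : ∀ Y, InU U Y → InU U (P Y) := fun Y hY =>
    (hY.sub (In.smul heU (hY.mul ones_in))).fromCols (In.smul (U.mul_mem heU heU) (hY.mul ones_in))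
  have hQU : InU U Q := (In.one.add (In.smul heU ones_in)).fromRows ones_in
  have e1 : ∀ᶠ z : Matrix α α ℝ × Matrix α α ℝ × Matrix α α ℝ in 𝓝 (Y0, 1, 1), PosM (P z.1) :=
    PosM.ev (by simp only [P]; fun_prop) hP0
  have e2 : ∀ᶠ z : Matrix α α ℝ × Matrix α α ℝ × Matrix α α ℝ in 𝓝 (Y0, 1, 1),
      PosM (z.2.1 * P z.1) := PosM.ev (by simp only [P]; fun_prop) (by simpa using hP0)
  have e3 : ∀ᶠ z : Matrix α α ℝ × Matrix α α ℝ × Matrix α α ℝ in 𝓝 (Y0, 1, 1),
      PosM (Q * z.2.2) := PosM.ev (by fun_prop) (by simpa using hQ0)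
  filter_upwards [e1, e2, e3]
  rintro ⟨Y, E, E'⟩ p1 p2 p3 hY hE hE' hEE
  simp only at p1 p2 p3 hY hE hE' hEE ⊢
  refine (SSE.step' (P Y) Q ((hPU Y hY).up p1) (hQU.up hQ0) (hPQ Y) rfl).trans
    (SSE.step' (Q * E') (E * P Y) (InU.up (hQU.mul hE') p3) (InU.up (hE.mul (hPU Y hY)) p2) ?_ ?_)
  · rw [Matrix.mul_assoc, ← Matrix.mul_assoc E', hEE, Matrix.one_mul]
  · rw [← Matrix.mul_assoc, Matrix.mul_assoc E, hPQ]

/-- adding a small block of sources -/
theorem near_src (hU : Small U) [Nonempty α] {Y0 : Matrix α α ℝ} (h0 : PosM Y0) (β : Type)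
    [Fintype β] [DecidableEq β] :
    ∃ θ θ' : Matrix (α ⊕ β) (α ⊕ β) ℝ, InU U θ ∧ InU U θ' ∧ θ * θ' = 1 ∧ θ' * θ = 1 ∧
      PosM (θ * fromBlocks Y0 0 0 0 * θ') ∧
      ∀ᶠ z : Matrix α α ℝ × Matrix β α ℝ in 𝓝 (Y0, 0), InU U z.1 → InU U z.2 →
        SSE (UP U) z.1 (θ * fromBlocks z.1 0 z.2 0 * θ') := by
  obtain ⟨e, he, heU, -, hp⟩ := hU (fun e => PosM (Y0 - (e • ones α β) * (ones β α * Y0)))
    (PosM.ev (by fun_prop) (by simpa using h0))
  have hJ : InU U (e • ones α β) := In.smul heU ones_in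
  have hJ0 : PosM (e • ones α β) := ones_pos.smul he
  generalize e • ones α β = J at hp hJ hJ0
  have key : ∀ (Y : Matrix α α ℝ) (r : Matrix β α ℝ),
      fromBlocks 1 (-J) 0 1 * fromBlocks 1 0 (ones β α) 1 * fromBlocks Y 0 r 0 *
        (fromBlocks 1 0 (-ones β α) 1 * fromBlocks 1 J 0 1) =
      fromRows (Y - J * (ones β α * Y + r)) (ones β α * Y + r) * fromCols 1 J := by
    intro Y r
    rw [Matrix.mul_assoc (fromBlocks 1 (-J) 0 1), ← Matrix.mul_assoc]
    rw [fromRows_mul_fromCols]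
    simp [fromBlocks_multiply, sub_eq_add_neg]
  refine ⟨fromBlocks 1 (-J) 0 1 * fromBlocks 1 0 (ones β α) 1,
    fromBlocks 1 0 (-ones β α) 1 * fromBlocks 1 J 0 1,
    (In.one.fromBlocks hJ.neg In.zero In.one).mul (In.one.fromBlocks In.zero ones_in In.one),
    (In.one.fromBlocks In.zero ones_in.neg In.one).mul (In.one.fromBlocks hJ In.zero In.one),
    ?_, ?_, ?_, ?_⟩
  · rw [Matrix.mul_assoc, ← Matrix.mul_assoc (fromBlocks 1 0 (ones β α) 1)]
    simp [fromBlocks_multiply]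
  · rw [Matrix.mul_assoc, ← Matrix.mul_assoc (fromBlocks 1 J 0 1)]
    simp [fromBlocks_multiply]
  · rw [key, mul_fromCols, Matrix.mul_one, add_zero]
    have := hp.fromRows ((ones_pos (m := β)).mul h0)
    exact this.fromCols (this.mul hJ0)
  · have e1 : ∀ᶠ z : Matrix α α ℝ × Matrix β α ℝ in 𝓝 (Y0, 0),
        PosM (fromRows (z.1 - J * (ones β α * z.1 + z.2)) (ones β α * z.1 + z.2)) :=
      PosM.ev (by fun_prop) (by simpa using hp.fromRows (ones_pos.mul h0))
    filter_upwards [e1]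
    rintro ⟨Y, r⟩ p1 hY hr
    simp only at p1 hY hr ⊢
    rw [key]
    have hρ : InU U (ones β α * Y + r) := (ones_in.mul hY).add hr
    refine SSE.step' _ _ (In.one.fromCols (hJ.up hJ0))
      (InU.up ((hY.sub (hJ.mul hρ)).fromRows hρ) p1) ?_ rfl
    simp [fromCols_mul_fromRows]

/-- adding a small block of sinks -/
theorem near_snk (hU : Small U) [Nonempty α] {Y0 : Matrix α α ℝ} (h0 : PosM Y0) (β : Type)
    [Fintype β] [DecidableEq β] :
    ∃ θ θ' : Matrix (α ⊕ β) (α ⊕ β) ℝ, InU U θ ∧ InU U θ' ∧ θ * θ' = 1 ∧ θ' * θ = 1 ∧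
      PosM (θ * fromBlocks Y0 0 0 0 * θ') ∧
      ∀ᶠ z : Matrix α α ℝ × Matrix α β ℝ in 𝓝 (Y0, 0), InU U z.1 → InU U z.2 →
        SSE (UP U) z.1 (θ * fromBlocks z.1 z.2 0 0 * θ') := by
  obtain ⟨θ, θ', h1, h2, h3, h4, h5, h6⟩ := near_src hU (Y0 := Y0ᵀ) (fun i j => h0 j i) β
  have key : ∀ (Y : Matrix α α ℝ) (c : Matrix α β ℝ),
      θ'ᵀ * fromBlocks Y c 0 0 * θᵀ = (θ * fromBlocks Yᵀ 0 cᵀ 0 * θ')ᵀ := by
    intro Y c
    simp [transpose_mul, fromBlocks_transpose, Matrix.mul_assoc]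
  refine ⟨θ'ᵀ, θᵀ, h2.transpose, h1.transpose, by rw [← transpose_mul, h3, transpose_one],
    by rw [← transpose_mul, h4, transpose_one], ?_, ?_⟩
  · rw [key]
    exact fun i j => h5 j i
  · have hc : Continuous fun z : Matrix α α ℝ × Matrix α β ℝ => (z.1ᵀ, z.2ᵀ) := by fun_prop
    filter_upwards [(hc.tendsto (Y0, 0)).eventually h6]
    rintro ⟨Y, c⟩ p1 hY hc
    rw [key]
    exact (p1 hY.transpose hc.transpose).transpose

/-- a small perturbation in a nilpotent direction -/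
theorem near_nil (hU : Small U) (β : Type) [Fintype β] [DecidableEq β] (m : ℕ) :
    ∀ {α : Type} [Fintype α] [DecidableEq α] [Nonempty α] (Y0 : Matrix α α ℝ)
      (g0 : Matrix α β ℝ), PosM Y0 →
      ∀ᶠ z : Matrix α α ℝ × Matrix α β ℝ × Matrix β α ℝ in 𝓝 (Y0, g0, 0), InU U z.1 →
        InU U z.2.1 → InU U z.2.2 → z.1 ^ m * z.2.1 = 0 → (∀ k, z.2.2 * (z.1 ^ k * z.2.1) = 0) →
        SSE (UP U) z.1 (z.1 + z.2.1 * z.2.2) := by
  induction m with
  | zero =>
    intro α _ _ _ Y0 g0 _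
    refine Eventually.of_forall fun z _ _ _ h _ => SSE.of_eq ?_
    rw [pow_zero, Matrix.one_mul] at h
    simp [h]
  | succ m ih =>
    intro α _ _ _ Y0 g0 h0
    obtain ⟨θ, θ', t1, t2, t3, t4, t5, t6⟩ := near_src hU h0 β
    have c1 : Continuous fun z : ℝ × Matrix α α ℝ × Matrix α β ℝ × Matrix β α ℝ =>
        (z.2.1, z.2.2.2) := by fun_prop
    have c2 : Continuous fun z : ℝ × Matrix α α ℝ × Matrix α β ℝ × Matrix β α ℝ =>
        (z.2.1 + z.1 • (z.2.2.1 * z.2.2.2), z.2.2.2) := by fun_prop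
    have c3 : Continuous fun z : ℝ × Matrix α α ℝ × Matrix α β ℝ × Matrix β α ℝ =>
        (θ * fromBlocks z.2.1 0 z.2.2.2 0 * θ', θ * fromBlocks 1 (z.1 • z.2.2.1) 0 1 * θ',
          θ * fromBlocks 1 (-(z.1 • z.2.2.1)) 0 1 * θ') := by fun_prop
    have c4 : Continuous fun z : ℝ × Matrix α α ℝ × Matrix α β ℝ × Matrix β α ℝ =>
        (θ * fromBlocks (z.2.1 + z.1 • (z.2.2.1 * z.2.2.2)) 0 z.2.2.2 0 * θ',
          θ * fromRows (-(z.2.1 * z.2.2.1)) (0 : Matrix β β ℝ),
          fromCols (0 : Matrix β α ℝ) (z.1 • (1 : Matrix β β ℝ)) * θ') := by fun_prop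
    have e1 := (c1.tendsto' (0, Y0, g0, 0) (Y0, 0) rfl).eventually t6
    have e2 := (c2.tendsto' (0, Y0, g0, 0) (Y0, 0) (by simp)).eventually t6
    have e3 := (c3.tendsto' (0, Y0, g0, 0) (_, 1, 1) (by simp [t3])).eventually (near_conj hU t5)
    have e4 := (c4.tendsto' (0, Y0, g0, 0) (_, _, 0) (by simp)).eventually
      (ih _ (θ * fromRows (-(Y0 * g0)) (0 : Matrix β β ℝ)) t5)
    obtain ⟨e, he, heU, heU', hp⟩ := hU _ ((e1.and (e2.and (e3.and e4))).curry_nhds)
    have c5 : Continuous fun z : Matrix α α ℝ × Matrix α β ℝ × Matrix β α ℝ =>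
        (z.1, z.2.1, e⁻¹ • z.2.2) := by fun_prop
    filter_upwards [(c5.tendsto' (Y0, g0, 0) (Y0, g0, 0) (by simp)).eventually hp]
    rintro ⟨Y, g, h⟩ ⟨p1, p2, p3, p4⟩ hY hg hh hm hk
    simp only at p1 p2 p3 p4 hY hg hh hm hk ⊢
    clear hp e1 e2 e3 e4 c1 c2 c3 c4 c5 t6 ih
    have hr : InU U (e⁻¹ • h) := In.smul heU' hh
    have hee : e • (g * (e⁻¹ • h)) = g * h := by
      rw [Matrix.mul_smul, smul_smul, mul_inv_cancel₀ he.ne', one_smul]
    have hrk : ∀ k, (e⁻¹ • h) * (Y ^ k * g) = 0 := fun k => by rw [Matrix.smul_mul, hk, smul_zero]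
    rw [hee] at p2 p4
    have hge : (e • g) * (e⁻¹ • h) = g * h := by rw [Matrix.smul_mul, hee]
    generalize e⁻¹ • h = r at p1 p2 p3 p4 hr hrk hge
    have hY' : InU U (Y + g * h) := hY.add (hg.mul hh)
    have heg : InU U (e • g) := In.smul heU hg
    have cj : ∀ {o : Type} (M : Matrix (α ⊕ β) (α ⊕ β) ℝ) (N : Matrix (α ⊕ β) o ℝ),
        θ * M * θ' * (θ * N) = θ * (M * N) := by
      intro o M N
      rw [Matrix.mul_assoc, ← Matrix.mul_assoc θ', t4, Matrix.one_mul, Matrix.mul_assoc]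
    have hpow : ∀ k, (θ * fromBlocks (Y + g * h) 0 r 0 * θ') ^ k *
        (θ * fromRows (-(Y * g)) (0 : Matrix β β ℝ)) =
        θ * fromRows (-(Y ^ (k + 1) * g)) (0 : Matrix β β ℝ) := by
      intro k
      induction k with
      | zero => simp
      | succ k ihk =>
        rw [pow_succ', Matrix.mul_assoc, ihk, cj, fromBlocks_mul_fromRows]
        simp [Matrix.add_mul, Matrix.mul_assoc, hk, hrk, pow_succ' Y (k + 1)]
    have q3 := p3 ((t1.mul (hY.fromBlocks In.zero hr In.zero)).mul t2)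
      ((t1.mul (In.one.fromBlocks heg In.zero In.one)).mul t2)
      ((t1.mul (In.one.fromBlocks heg.neg In.zero In.one)).mul t2) (by
        rw [Matrix.mul_assoc θ (fromBlocks 1 (e • g) 0 1), cj, ← Matrix.mul_assoc _ _ θ']
        simp [fromBlocks_multiply, t3])
    have q4 := p4 ((t1.mul (hY'.fromBlocks In.zero hr In.zero)).mul t2)
      (t1.mul (In.fromRows (InU.neg (hY.mul hg)) In.zero))
      ((In.zero.fromCols (In.smul heU In.one)).mul t2) (by rw [hpow, hm]; simp) (by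
        intro k
        rw [hpow, Matrix.mul_assoc, ← Matrix.mul_assoc θ', t4]
        simp [fromCols_mul_fromRows])
    refine (p1 hY hr).trans (q3.trans (SSE.trans (SSE.of_eq ?_) (q4.symm.trans (p2 hY' hr).symm)))
    have h00 : h * g = 0 := by simpa using hk 0
    have h01 : r * g = 0 := by simpa using hrk 0
    have cj2 : ∀ M N : Matrix (α ⊕ β) (α ⊕ β) ℝ, θ * M * θ' * (θ * N * θ') = θ * (M * N) * θ' := by
      intro M N
      rw [← Matrix.mul_assoc, cj]
    rw [cj2, cj2, ← Matrix.mul_assoc _ _ θ', ← Matrix.add_mul, Matrix.mul_assoc θ (fromRows _ _),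
      ← Matrix.mul_add, fromRows_mul_fromCols]
    congr 2
    simp [fromBlocks_multiply, fromBlocks_add, hge, Matrix.add_mul, Matrix.mul_assoc, h00, h01]

end Pool.Agent.MP_993212_an.H57
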