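import Pool.Agent.MP_993212_an.H57.Fill
import Pool.Agent.MP_993212_an.H57.Comb
import Pool.Agent.MP_993212_an.H57.Push

/-! The path of hybrid matrices and the main theorem over a subring of the reals. -/

namespace Pool.Agent.MP_993212_an.H57

open Matrix Filter Topology Relation

variable {α β : Type} [Fintype α] [DecidableEq α] [Fintype β] [DecidableEq β]

section Lift

variable {K : Type} [CommSemiring K] {P : Subsemiring K}

theorem map_pow' {F : Type} [CommSemiring F] (φ : K →+* F) (A : Matrix α α K) (k : ℕ) :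
    (A ^ k).map φ = A.map φ ^ k := map_pow φ.mapMatrix A k

theorem comb_start_in (k : ℕ) {a : Matrix α α K} {Y R : Matrix α β K} {S : Matrix β α K}
    (h1 : In P a) (h2 : In P Y) (h3 : In P R) (h4 : In P S) (hY : Y * S = (R * S) ^ (k + 1)) :
    SSE P (comb (k + 1) (fun i => (R * S) ^ i * a) Y (S * a) (S * R)) (a + R * S) := by
  obtain ⟨a, rfl⟩ := h1.exists_lift
  obtain ⟨Y, rfl⟩ := h2.exists_lift
  obtain ⟨R, rfl⟩ := h3.exists_lift
  obtain ⟨S, rfl⟩ := h4.exists_lift
  have h := (comb_start k a Y R S (Matrix.map_injective P.subtype_injective (by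
    simpa only [Matrix.map_mul, map_pow'] using hY))).lift
  simpa only [comb_map, Matrix.map_mul, map_pow', Matrix.map_add _ (map_add P.subtype)] using h

theorem comb_end_in (k : ℕ) {b : Matrix α α K} {b' : Matrix β β K} {Y R : Matrix α β K}
    {S : Matrix β α K} (h1 : In P b) (h1' : In P b') (h2 : In P Y) (h3 : In P R) (h4 : In P S)
    (hb : S * b = b' * S) (hY : S * Y = b' ^ (k + 1)) :
    SSE P (comb (k + 1) (fun i => b ^ i * (R * S)) Y (S * (R * S)) b') (S * R + b') := by
  obtain ⟨b, rfl⟩ := h1.exists_lift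
  obtain ⟨b', rfl⟩ := h1'.exists_lift
  obtain ⟨Y, rfl⟩ := h2.exists_lift
  obtain ⟨R, rfl⟩ := h3.exists_lift
  obtain ⟨S, rfl⟩ := h4.exists_lift
  have h := (comb_end k b b' Y R S (Matrix.map_injective P.subtype_injective (by
    simpa only [Matrix.map_mul] using hb)) (Matrix.map_injective P.subtype_injective (by
    simpa only [Matrix.map_mul, map_pow'] using hY))).lift
  simpa only [comb_map, Matrix.map_mul, map_pow', Matrix.map_add _ (map_add P.subtype)] using h

end Lift

section Hyb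

variable {F : Type} [CommRing F]

theorem hb_map {L : Type} [CommRing L] (φ : F →+* L) (c d : F) (m : ℕ) (A : Matrix α α F) :
    (hb c d m A).map φ = hb (φ c) (φ d) m (A.map φ) := by
  rw [hb, hb, ← map_pow', Matrix.map_add _ (map_add φ)]
  congr 1
  · ext i j
    simp only [Matrix.map_apply, Matrix.smul_apply, smul_eq_mul, map_mul, Matrix.one_apply]
    split_ifs <;> simp
  · ext i j
    simp

theorem hb_comm (c d : F) (m : ℕ) (A : Matrix α α F) : Commute (hb c d m A) A :=
  (hb_inter c d m rfl).symm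

/-- the hybrid matrix -/
def hyb (c d : F) (m : ℕ) (A : Matrix α α F) (B : Matrix β β F) (R : Matrix α β F)
    (S : Matrix β α F) : Matrix (Fin (m + 1) × α ⊕ β) (Fin (m + 1) × α ⊕ β) F :=
  comb (m + 1) (fun i => (hb c d m A * A) ^ i * (A - hb c d m A * A)) (hb c d m A ^ (m + 1) * R)
    (S * (A - hb c d m A * A)) (hb c d m B * B)

theorem hyb_alg {K : Type} [CommRing K] [IsDomain K] [IsPrincipalIdealRing K] (φ : K →+* F)
    (c d : F) (m : ℕ) {A : Matrix α α K} {B : Matrix β β K} {R : Matrix α β K} {S : Matrix β α K}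
    (h1 : R * S = A ^ (m + 1)) (h2 : S * R = B ^ (m + 1)) (h3 : A * R = R * B)
    (h4 : S * A = B * S) :
    SSE ⊤ (A.map φ) (hyb c d m (A.map φ) (B.map φ) (R.map φ) (S.map φ)) := by
  have s1 := pur_sse m (A.map φ - hb c d m (A.map φ) * A.map φ) (hb c d m (A.map φ) * A.map φ)
  rw [sub_add_cancel] at s1
  refine s1.symm.trans ?_
  have s2 := push φ c d m B (cX (m + 1) (m + 1) fun i => (hb c d m (A.map φ) * A.map φ) ^ i *
    (A.map φ - hb c d m (A.map φ) * A.map φ)) m A R S
    (cY (m + 1) (hb c d m (A.map φ) ^ (m + 1) * R.map φ))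
    (cZ (m + 1) (A.map φ - hb c d m (A.map φ) * A.map φ)) h1 h2 h3 h4
  rwa [cY_mul, mul_cZ, Matrix.mul_assoc, ← Matrix.map_mul, h1, map_pow',
    ← (hb_comm c d m _).mul_pow] at s2

end Hyb

theorem PosM.conv {m n : Type} {X Y : Matrix m n ℝ} (hX : PosM X) (hY : PosM Y) {t : ℝ}
    (ht : t ∈ Set.Icc (0 : ℝ) 1) : PosM (t • X + (1 - t) • Y) := fun i j => by
  have h1 := hX i j
  have h2 := hY i j
  simp only [Matrix.add_apply, Matrix.smul_apply, smul_eq_mul]
  rcases ht.1.eq_or_lt with h | h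
  · simpa [← h] using h2
  · have := mul_pos h h1
    have := mul_nonneg (sub_nonneg.2 ht.2) h2.le
    linarith

theorem PosM.pow [Nonempty α] {A : Matrix α α ℝ} (hA : PosM A) (k : ℕ) : PosM (A ^ (k + 1)) := by
  induction k with
  | zero => simpa using hA
  | succ k ih => rw [pow_succ]; exact ih.mul hA

theorem PosM.pow_mul [Nonempty α] {n : Type} {A : Matrix α α ℝ} (hA : PosM A) {R : Matrix α n ℝ}
    (hR : PosM R) (k : ℕ) : PosM (A ^ k * R) := by
  cases k with
  | zero => simpa using hR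
  | succ k => exact (hA.pow k).mul hR

theorem hb_pos [Nonempty α] {n : Type} [Finite n] {A : Matrix α α ℝ} (hA : PosM A)
    {R : Matrix α n ℝ} (hR : PosM R) (m N : ℕ) :
    ∀ᶠ e in 𝓝 (0 : ℝ), 0 < e → ∀ t ∈ Set.Icc (0 : ℝ) 1,
      PosM (hb t (e * (1 - 2 * t)) m A ^ N * R) := by
  have h1 : ∀ᶠ e in 𝓝 (0 : ℝ), ∀ i ∈ Finset.range (N + 1), PosM ((1 - e • A ^ m) ^ i * R) :=
    (eventually_all_finset _).2 fun i _ => PosM.ev (by fun_prop) (by simpa using hR)
  filter_upwards [h1] with e he h0 t ht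
  have hh : hb t (e * (1 - 2 * t)) m A = t • (1 - e • A ^ m) + (1 - t) • e • A ^ m := by
    rw [hb]
    module
  have hc : Commute (1 - e • A ^ m) (hb t (e * (1 - 2 * t)) m A) :=
    (Commute.one_left _).sub_left (((hb_comm _ _ _ _).symm.pow_left m).smul_left e)
  have key : ∀ j i, i + j ≤ N →
      PosM (hb t (e * (1 - 2 * t)) m A ^ j * ((1 - e • A ^ m) ^ i * R)) := by
    intro j
    induction j with
    | zero =>
      intro i hi
      simpa using he i (Finset.mem_range.2 (by omega))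
    | succ j ih =>
      intro i hi
      have a1 := ih (i + 1) (by omega)
      have a2 := (hA.pow_mul (ih i (by omega)) m).smul h0
      have := a1.conv a2 ht
      rw [pow_succ' (1 - e • A ^ m), Matrix.mul_assoc, ← Matrix.mul_assoc _ (1 - e • A ^ m),
        ← (hc.pow_right j).eq, Matrix.mul_assoc, ← Matrix.smul_mul, ← Matrix.smul_mul,
        ← Matrix.smul_mul, ← Matrix.add_mul, ← hh, ← Matrix.mul_assoc, ← pow_succ'] at this
      exact this
  simpa using key N 0 (by omega)

variable {U : Subring ℝ}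

theorem comb_fill (hU : Small U) [Nonempty α] (m : ℕ) {c : ℕ → Matrix α α (Fam U)}
    {Y : Matrix α β (Fam U)} {Z : Matrix β α (Fam U)} {W : Matrix β β (Fam U)}
    (hc : ∀ k i j, pos (c k i j)) (hY : ∀ i j, pos (Y i j)) (hZ : ∀ i j, pos (Z i j))
    (hW : ∀ i j, pos (W i j)) :
    ∃ X', SSE (NN U) (comb (m + 1) c Y Z W) X' ∧
      ∀ i j : Fin (m + 1) × α ⊕ β, pos (X' i j) := by
  obtain ⟨x0⟩ := ‹Nonempty α›
  have hcx : ∀ i j, In (NN U) (cx c i j) := fun i j => by
    refine In.add ?_ ?_ <;> split_ifs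
    exacts [fun a b => (hc i a b).nn, In.zero, In.one, In.zero]
  have h0 : ∀ (i : Fin (m + 1) × α ⊕ β) x, pos (comb (m + 1) c Y Z W i (Sum.inl (0, x))) := by
    rintro (⟨i, y⟩ | y) x
    · simpa [comb, cX, blk, cx] using hc i y x
    · simpa [comb, cZ, brow] using hZ y x
  have h1 : ∀ (j : ℕ) (hj : j < m + 1) x, ReflTransGen (fun i j => pos (comb (m + 1) c Y Z W i j))
      (Sum.inl (0, x0)) (Sum.inl (⟨j, hj⟩, x)) := by
    intro j
    induction j with
    | zero => exact fun _ x => .single (h0 _ x)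
    | succ j ih =>
      intro hj x
      refine (ih (by omega) x).tail ?_
      simpa [comb, cX, blk, cx] using pos_one
  refine fill_col hU (Sum.inl (0, x0)) _ _ ?_ (fun i => h0 i x0) ?_ le_rfl
  · rintro (⟨i, x⟩ | x) (⟨j, y⟩ | y)
    · exact hcx i j x y
    · simp only [comb, cY, bcol, fromBlocks_apply₁₂]
      split_ifs
      exacts [(hY x y).nn, (NN U).zero_mem]
    · simp only [comb, cZ, brow, fromBlocks_apply₂₁]
      split_ifs
      exacts [(hZ x y).nn, (NN U).zero_mem]
    · exact (hW x y).nn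
  · rintro (⟨j, x⟩ | y)
    · exact h1 j j.2 x
    · refine (h1 m (by omega) x0).tail ?_
      simpa [comb, cY, bcol] using hY x0 y

/-- the parameter as a family -/
def tau (U : Subring ℝ) : Fam U := ⟨id, continuous_id, fun _ h => h⟩

theorem main_pos (hU : Small U) [IsPrincipalIdealRing U] [Nonempty α] [Nonempty β]
    {A : Matrix α α ℝ} {B : Matrix β β ℝ} {R : Matrix α β ℝ} {S : Matrix β α ℝ} (m : ℕ)
    (uA : InU U A) (uB : InU U B) (uR : InU U R) (uS : InU U S) (hA : PosM A) (hB : PosM B)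
    (hR : PosM R) (hS : PosM S) (h1 : R * S = A ^ (m + 1)) (h2 : S * R = B ^ (m + 1))
    (h3 : A * R = R * B) (h4 : S * A = B * S) : SSE (UP U) A B := by
  obtain ⟨e, he, heU, -, p1, p2, p3⟩ := hU _
    ((hb_pos hA hA m 1).and ((hb_pos hB hB m 1).and (hb_pos hA hR m (m + 1))))
  have p1 := p1 he
  have p2 := p2 he
  have p3 := p3 he
  simp only [pow_one] at p1 p2
  have p4 : ∀ t ∈ Set.Icc (0 : ℝ) 1, PosM (A - hb t (e * (1 - 2 * t)) m A * A) := fun t ht => by
    have := p1 (1 - t) ⟨sub_nonneg.2 ht.2, sub_le_self _ ht.1⟩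
    convert this using 1
    simp only [hb, Matrix.add_mul, Matrix.smul_mul, Matrix.one_mul]
    module
  let A' : Matrix α α U := fun i j => ⟨A i j, uA i j⟩
  let B' : Matrix β β U := fun i j => ⟨B i j, uB i j⟩
  let R' : Matrix α β U := fun i j => ⟨R i j, uR i j⟩
  let S' : Matrix β α U := fun i j => ⟨S i j, uS i j⟩
  have inj : ∀ {m n : Type} {X Y : Matrix m n U}, X.map U.subtype = Y.map U.subtype → X = Y :=
    fun h => Matrix.map_injective U.subtype_injective h
  let d : Fam U := cst U ⟨e, heU⟩ * (1 - 2 * tau U)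
  have alg := hyb_alg (cst U) (tau U) d m (A := A') (B := B') (R := R') (S := S')
    (inj (by rw [Matrix.map_mul, map_pow']; exact h1))
    (inj (by rw [Matrix.map_mul, map_pow']; exact h2))
    (inj (by rw [Matrix.map_mul, Matrix.map_mul]; exact h3))
    (inj (by rw [Matrix.map_mul, Matrix.map_mul]; exact h4))
  have eA : ∀ t, (A'.map (cst U)).map (ev U t) = A := fun _ => rfl
  have eB : ∀ t, (B'.map (cst U)).map (ev U t) = B := fun _ => rfl
  have eR : ∀ t, (R'.map (cst U)).map (ev U t) = R := fun _ => rfl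
  have eS : ∀ t, (S'.map (cst U)).map (ev U t) = S := fun _ => rfl
  have et : ∀ t, ev U t (tau U) = t := fun _ => rfl
  have ed : ∀ t, ev U t d = e * (1 - 2 * t) := fun t => by
    simp only [d, map_mul, map_sub, map_one, ev_cst, et, map_ofNat]
  have q1 : ∀ (i : ℕ) t, ((hb (tau U) d m (A'.map (cst U)) * A'.map (cst U)) ^ i *
      (A'.map (cst U) - hb (tau U) d m (A'.map (cst U)) * A'.map (cst U))).map (ev U t) =
      (hb t (e * (1 - 2 * t)) m A * A) ^ i * (A - hb t (e * (1 - 2 * t)) m A * A) := fun i t => by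
    simp only [Matrix.map_mul, map_pow', Matrix.map_sub _ (map_sub (ev U t)), hb_map, eA, et, ed]
  have q2 : ∀ t, (hb (tau U) d m (A'.map (cst U)) ^ (m + 1) * R'.map (cst U)).map (ev U t) =
      hb t (e * (1 - 2 * t)) m A ^ (m + 1) * R := fun t => by
    simp only [Matrix.map_mul, map_pow', hb_map, eA, eR, et, ed]
  have q3 : ∀ t, (S'.map (cst U) *
      (A'.map (cst U) - hb (tau U) d m (A'.map (cst U)) * A'.map (cst U))).map (ev U t) =
      S * (A - hb t (e * (1 - 2 * t)) m A * A) := fun t => by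
    simp only [Matrix.map_mul, Matrix.map_sub _ (map_sub (ev U t)), hb_map, eA, eS, et, ed]
  have q4 : ∀ t, (hb (tau U) d m (B'.map (cst U)) * B'.map (cst U)).map (ev U t) =
      hb t (e * (1 - 2 * t)) m B * B := fun t => by
    simp only [Matrix.map_mul, hb_map, eB, et, ed]
  obtain ⟨X', s1, s2⟩ := comb_fill hU m
    (fun k i j t ht => (q1 k t ▸ (p1 t ht).pow_mul (p4 t ht) k : PosM _) i j)
    (fun i j t ht => (q2 t ▸ p3 t ht : PosM _) i j)
    (fun i j t ht => (q3 t ▸ hS.mul (p4 t ht) : PosM _) i j)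
    (fun i j t ht => (q4 t ▸ p2 t ht : PosM _) i j)
  have r := rigid hU (alg.trans (s1.mono le_top)) fun t ht i j => s2 i j t ht
  have i0 : (0 : ℝ) ∈ Set.Icc (0 : ℝ) 1 := Set.left_mem_Icc.2 zero_le_one
  have i1 : (1 : ℝ) ∈ Set.Icc (0 : ℝ) 1 := Set.right_mem_Icc.2 zero_le_one
  have r0 := s1.map (ev U 0) fun x hx => ev_up hx i0 U.zero_mem
  have r1 := s1.map (ev U 1) fun x hx => ev_up hx i1 U.one_mem
  simp only [comb_map, q1, q2, q3, q4] at r0 r1
  have uh : ∀ t ∈ U, InU U (hb t (e * (1 - 2 * t)) m A) := fun t ht => by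
    have := map_ev_in (hb (tau U) d m (A'.map (cst U))) ht
    rwa [hb_map, eA, et, ed] at this
  have uh' : ∀ t ∈ U, InU U (hb t (e * (1 - 2 * t)) m B) := fun t ht => by
    have := map_ev_in (hb (tau U) d m (B'.map (cst U))) ht
    rwa [hb_map, eB, et, ed] at this
  have ueR : In (UP U) (e • R) := InU.up (In.smul heU uR) (hR.smul he)
  refine SSE.trans ?_ (r0.trans (r.trans (r1.symm.trans ?_)))
  · have b1 : hb 0 (e * (1 - 2 * 0)) m A * A = (e • R) * S := by
      simp [hb, h1, pow_succ]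
    have b2 : hb 0 (e * (1 - 2 * 0)) m B * B = S * (e • R) := by
      simp [hb, h2, pow_succ]
    have := comb_start_in (P := UP U) m
      (InU.up (uA.sub ((uh 0 U.zero_mem).mul uA)) (p4 0 i0))
      (InU.up (((uh 0 U.zero_mem).pow _).mul uR) (p3 0 i0)) ueR (uS.up hS) (by
        rw [← b1, Matrix.mul_assoc, h1, (hb_comm _ _ _ _).mul_pow])
    rw [← b1, ← b2, sub_add_cancel] at this
    exact this.symm
  · have b1 : A - hb 1 (e * (1 - 2 * 1)) m A * A = (e • R) * S := by
      simp only [hb, Matrix.add_mul, Matrix.smul_mul, Matrix.one_mul, h1, pow_succ]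
      module
    have b2 : S * (e • R) + hb 1 (e * (1 - 2 * 1)) m B * B = B := by
      simp only [hb, Matrix.add_mul, Matrix.smul_mul, Matrix.mul_smul, Matrix.one_mul, h2, pow_succ]
      module
    have := comb_end_in (P := UP U) m (InU.up ((uh 1 U.one_mem).mul uA) (p1 1 i1))
      (InU.up ((uh' 1 U.one_mem).mul uB) (p2 1 i1))
      (InU.up (((uh 1 U.one_mem).pow _).mul uR) (p3 1 i1)) ueR (uS.up hS)
      (by rw [← Matrix.mul_assoc, hb_inter _ _ _ h4, Matrix.mul_assoc, h4, Matrix.mul_assoc])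
      (by
        have hi : S * hb 1 (e * (1 - 2 * 1)) m A = hb 1 (e * (1 - 2 * 1)) m B * S :=
          hb_inter _ _ _ h4
        rw [← Matrix.mul_assoc, pow_inter' hi, Matrix.mul_assoc, h2, (hb_comm _ _ _ _).mul_pow])
    rwa [← b1, b2] at this

omit [DecidableEq α] [Fintype β] [DecidableEq β] in
theorem posM_mul_of_col {n : Type} {A : Matrix n α ℝ} {R : Matrix α β ℝ} {S : Matrix β α ℝ}
    (hA : PosM A) (hR : ∀ i j, 0 ≤ R i j) (h : PosM (S * R)) : PosM (A * R) := fun i j => by
  have h1 := h j j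
  rw [Matrix.mul_apply] at h1 ⊢
  obtain ⟨a, -, ha⟩ := Finset.exists_ne_zero_of_sum_ne_zero h1.ne'
  exact Finset.sum_pos' (fun k _ => mul_nonneg (hA i k).le (hR k j)) ⟨a, Finset.mem_univ a,
    mul_pos (hA i a) (lt_of_le_of_ne (hR a j) (right_ne_zero_of_mul ha).symm)⟩

/-- shift equivalence implies strong shift equivalence for irreducible matrices with a loop -/
theorem main (hU : Small U) [IsPrincipalIdealRing U] {A : Matrix α α ℝ} {B : Matrix β β ℝ}
    (uA : In (UP U) A) (uB : In (UP U) B) (hA : ∀ i j, ∃ k, 0 < (A ^ k) i j)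
    (hB : ∀ i j, ∃ k, 0 < (B ^ k) i j) (a : α) (ha : 0 < A a a) (b : β) (hb : 0 < B b b)
    (h : SE (UP U) A B) : SSE (UP U) A B := by
  obtain ⟨α', _, _, _, A', s1, p1⟩ := make_pos hU uA a ha hA
  obtain ⟨β', _, _, _, B', s2, p2⟩ := make_pos hU uB b hb hB
  have u1 := s1.in uA
  have u2 := s2.in uB
  obtain ⟨l, R, S, uR, uS, h1, h2, h3, h4⟩ := ((s1.se uA).symm.trans h).trans (s2.se uB)
  refine s1.trans (SSE.trans ?_ s2.symm)
  refine main_pos hU (R := A' * R) (S := B' * S) (l + 2) u1.inU u2.inU (u1.mul uR).inU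
    (u2.mul uS).inU p1 p2 (posM_mul_of_col p1 uR.nonneg (h2 ▸ p2.pow l))
    (posM_mul_of_col p2 uS.nonneg (h1 ▸ p1.pow l)) ?_ ?_ ?_ ?_
  · rw [Matrix.mul_assoc, ← Matrix.mul_assoc R, ← h3, Matrix.mul_assoc, h1, ← pow_succ',
      ← pow_succ']
  · rw [Matrix.mul_assoc, ← Matrix.mul_assoc S, h4, Matrix.mul_assoc, h2, ← pow_succ',
      ← pow_succ']
  · rw [Matrix.mul_assoc, h3]
  · rw [Matrix.mul_assoc, h4]

end Pool.Agent.MP_993212_an.H57
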