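import Pool.Agent.MP_993212_an.H57.Local

/-! Continuous families of positive matrices that are algebraically strong shift equivalent to a
constant family have a constant class. -/

namespace Pool.Agent.MP_993212_an.H57

open Matrix Filter Topology

variable {U : Subring ℝ} {α β ι : Type} [Fintype α] [DecidableEq α] [Fintype β] [DecidableEq β]
  [Fintype ι] [DecidableEq ι]

/-- edges go down in level, except inside level zero -/
def Lv (lv : ι → ℕ) (T : Matrix ι ι ℝ) : Prop :=
  ∀ i j, T i j ≠ 0 → lv j < lv i ∨ (lv i = 0 ∧ lv j = 0)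

theorem Lv.pow {lv : ι → ℕ} {T : Matrix ι ι ℝ} (h : Lv lv T) (k : ℕ) :
    ∀ i j, (T ^ k) i j ≠ 0 → lv j ≤ lv i ∧ (0 < lv j → lv j + k ≤ lv i) := by
  induction k with
  | zero =>
    intro i j hne
    rw [pow_zero, Matrix.one_apply] at hne
    have : i = j := by
      by_contra h'
      exact hne (if_neg h')
    simp [this]
  | succ k ih =>
    intro i j hne
    rw [pow_succ', Matrix.mul_apply] at hne
    obtain ⟨a, -, ha⟩ := Finset.exists_ne_zero_of_sum_ne_zero hne
    have h1 := h i a (left_ne_zero_of_mul ha)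
    have h2 := ih a j (right_ne_zero_of_mul ha)
    omega

/-- the entries of `T'` on `s` and of `T` elsewhere -/
def mix (s : Finset (ι × ι)) (T T' : Matrix ι ι ℝ) : Matrix ι ι ℝ :=
  fun i j => if (i, j) ∈ s then T' i j else T i j

omit [Fintype β] [DecidableEq β] in
theorem conj_pow {G : Matrix α ι ℝ} {H : Matrix ι α ℝ} (h : H * G = 1) (M : Matrix ι ι ℝ)
    (N : Matrix ι β ℝ) (k : ℕ) : (G * M * H) ^ k * (G * N) = G * (M ^ k * N) := by
  induction k with
  | zero => simp
  | succ k ih =>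
    rw [pow_succ', Matrix.mul_assoc, ih, Matrix.mul_assoc, ← Matrix.mul_assoc H, h,
      Matrix.one_mul, pow_succ', Matrix.mul_assoc, Matrix.mul_assoc]

theorem near_mix (hU : Small U) [Nonempty α] (lv : ι → ℕ) {G0 : Matrix α ι ℝ} {H0 : Matrix ι α ℝ}
    {T0 : Matrix ι ι ℝ} (h0 : PosM (G0 * T0 * H0)) (s : Finset (ι × ι)) :
    ∀ᶠ z : Matrix α ι ℝ × Matrix ι α ℝ × Matrix ι ι ℝ × Matrix ι ι ℝ in 𝓝 (G0, H0, T0, T0),
      InU U z.1 → InU U z.2.1 → InU U z.2.2.1 → InU U z.2.2.2 → z.2.1 * z.1 = 1 →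
      Lv lv z.2.2.1 → Lv lv z.2.2.2 → (∀ i j, z.2.2.1 i j ≠ z.2.2.2 i j → lv j < lv i) →
      SSE (UP U) (z.1 * z.2.2.1 * z.2.1) (z.1 * mix s z.2.2.1 z.2.2.2 * z.2.1) := by
  induction s using Finset.induction_on with
  | empty =>
    refine Eventually.of_forall fun z _ _ _ _ _ _ _ _ => SSE.of_eq ?_
    congr 2
  | insert a s ha ih =>
    obtain ⟨i, j⟩ := a
    have cm : Continuous fun z : Matrix α ι ℝ × Matrix ι α ℝ × Matrix ι ι ℝ × Matrix ι ι ℝ =>
        mix s z.2.2.1 z.2.2.2 := by
      refine continuous_matrix fun a b => ?_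
      simp only [mix]
      split_ifs <;> fun_prop
    have cs : Continuous fun z : Matrix α ι ℝ × Matrix ι α ℝ × Matrix ι ι ℝ × Matrix ι ι ℝ =>
        (Matrix.single () j (z.2.2.2 i j - z.2.2.1 i j) : Matrix Unit ι ℝ) := by
      refine continuous_matrix fun a b => ?_
      simp only [Matrix.single_apply]
      split_ifs <;> fun_prop
    have c1 : Continuous fun z : Matrix α ι ℝ × Matrix ι α ℝ × Matrix ι ι ℝ × Matrix ι ι ℝ =>
        (z.1 * mix s z.2.2.1 z.2.2.2 * z.2.1, z.1 * (Matrix.single i () 1 : Matrix ι Unit ℝ),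
          (Matrix.single () j (z.2.2.2 i j - z.2.2.1 i j) : Matrix Unit ι ℝ) * z.2.1) := by
      fun_prop
    have hm : mix s T0 T0 = T0 := by
      ext a b
      simp [mix]
    have e1 := (c1.tendsto' (G0, H0, T0, T0) (_, _, 0) (by simp [hm])).eventually
      (near_nil hU Unit (∑ a, lv a + 1) _ (G0 * (Matrix.single i () 1 : Matrix ι Unit ℝ)) h0)
    filter_upwards [ih, e1]
    clear ih e1 c1 cs cm
    rintro ⟨G, H, T, T'⟩ p1 p2 hG hH hT hT' hHG l1 l2 l3
    simp only at p1 p2 hG hH hT hT' hHG l1 l2 l3 ⊢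
    refine (p1 hG hH hT hT' hHG l1 l2 l3).trans ?_
    have hmix : mix (insert (i, j) s) T T' = mix s T T' + Matrix.single i j (T' i j - T i j) := by
      ext a b
      simp only [mix, Matrix.add_apply, Matrix.single_apply, Finset.mem_insert, Prod.mk.injEq]
      by_cases hab : i = a ∧ j = b
      · obtain ⟨rfl, rfl⟩ := hab
        simp [ha]
      · have : ¬ (a = i ∧ b = j) := fun h => hab ⟨h.1.symm, h.2.symm⟩
        simp [hab, this]
    by_cases hij : T i j = T' i j
    · refine SSE.of_eq ?_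
      rw [hmix, hij, sub_self, Matrix.single_zero, add_zero]
    have hlt := l3 i j hij
    have hMU : InU U (mix s T T') := fun a b => by
      simp only [mix]
      split_ifs
      exacts [hT' a b, hT a b]
    have hML : Lv lv (mix s T T') := fun a b => by
      simp only [mix]
      split_ifs
      exacts [l2 a b, l1 a b]
    have s1 : InU U (Matrix.single i () 1 : Matrix ι Unit ℝ) := fun a b => by
      rw [Matrix.single_apply]
      split_ifs
      exacts [U.one_mem, U.zero_mem]
    have s2 : InU U (Matrix.single () j (T' i j - T i j) : Matrix Unit ι ℝ) := fun a b => by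
      rw [Matrix.single_apply]
      split_ifs
      exacts [U.sub_mem (hT' i j) (hT i j), U.zero_mem]
    refine (p2 ((hG.mul hMU).mul hH) (hG.mul s1) (s2.mul hH) ?_ ?_).trans (SSE.of_eq ?_)
    · rw [conj_pow hHG]
      have : mix s T T' ^ (∑ a, lv a + 1) * (Matrix.single i () 1 : Matrix ι Unit ℝ) = 0 := by
        ext a b
        rw [Matrix.mul_single_apply_same, mul_one, Matrix.zero_apply]
        by_contra hne
        have h1 := (hML.pow _ a i hne).2 (by omega)
        have := Finset.single_le_sum (f := lv) (fun _ _ => Nat.zero_le _) (Finset.mem_univ a)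
        omega
      rw [this, Matrix.mul_zero]
    · intro k
      rw [conj_pow hHG, Matrix.mul_assoc, ← Matrix.mul_assoc H, hHG, Matrix.one_mul]
      ext a b
      rw [Matrix.single_mul_apply_same, Matrix.mul_single_apply_same, Matrix.zero_apply]
      have : (mix s T T' ^ k) j i = 0 := by
        by_contra hne
        have h1 := (hML.pow _ j i hne).1
        omega
      simp [this]
    · rw [hmix, Matrix.mul_add, Matrix.add_mul, Matrix.mul_assoc G (Matrix.single i () 1),
        ← Matrix.mul_assoc (Matrix.single i () 1), Matrix.single_mul_single_same, one_mul,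
        Matrix.mul_assoc G (Matrix.single _ _ _)]

/-- continuous functions that map `U` into `U` -/
def Fam (U : Subring ℝ) : Subring (ℝ → ℝ) where
  carrier := {f | Continuous f ∧ ∀ t ∈ U, f t ∈ U}
  mul_mem' ha hb := ⟨ha.1.mul hb.1, fun t ht => U.mul_mem (ha.2 t ht) (hb.2 t ht)⟩
  one_mem' := ⟨continuous_const, fun _ _ => U.one_mem⟩
  add_mem' ha hb := ⟨ha.1.add hb.1, fun t ht => U.add_mem (ha.2 t ht) (hb.2 t ht)⟩
  zero_mem' := ⟨continuous_const, fun _ _ => U.zero_mem⟩
  neg_mem' ha := ⟨ha.1.neg, fun t ht => U.neg_mem (ha.2 t ht)⟩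

/-- evaluation of a family -/
def ev (U : Subring ℝ) (t : ℝ) : Fam U →+* ℝ :=
  (Pi.evalRingHom (fun _ => ℝ) t).comp (Fam U).subtype

/-- constant families -/
def cst (U : Subring ℝ) : U →+* Fam U where
  toFun x := ⟨fun _ => x, continuous_const, fun _ _ => x.2⟩
  map_one' := rfl
  map_mul' _ _ := rfl
  map_zero' := rfl
  map_add' _ _ := rfl

@[simp] theorem ev_cst (t : ℝ) (x : U) : ev U t (cst U x) = x := rfl

theorem ev_cont (f : Fam U) : Continuous fun t => ev U t f := f.2.1

theorem ev_mem (f : Fam U) {t : ℝ} (ht : t ∈ U) : ev U t f ∈ U := f.2.2 t ht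

@[fun_prop]
theorem map_ev_cont {m n T : Type} [TopologicalSpace T] (W : Matrix m n (Fam U)) {f : T → ℝ}
    (hf : Continuous f) : Continuous fun x => W.map (ev U (f x)) :=
  continuous_matrix fun i j => (ev_cont (W i j)).comp hf

theorem map_ev_in {m n : Type} (W : Matrix m n (Fam U)) {t : ℝ} (ht : t ∈ U) :
    InU U (W.map (ev U t)) := fun i j => ev_mem (W i j) ht

theorem InU.exists_cst {m n : Type} {A : Matrix m n ℝ} (hA : InU U A) :
    ∃ A' : Matrix m n (Fam U), ∀ t, A'.map (ev U t) = A :=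
  ⟨fun i j => cst U ⟨A i j, hA i j⟩, fun _ => rfl⟩

theorem fam_ext {m n : Type} {A B : Matrix m n (Fam U)}
    (h : ∀ t, A.map (ev U t) = B.map (ev U t)) : A = B := by
  ext i j t
  exact congrFun (congrFun (h t) i) j

/-- conjugate to a matrix that is constant on level zero and strictly triangular elsewhere -/
def Good (W : Matrix α α (Fam U)) : Prop :=
  ∃ (ι : Type) (_ : Fintype ι) (_ : DecidableEq ι) (G : Matrix α ι (Fam U))
    (H : Matrix ι α (Fam U)) (T : Matrix ι ι (Fam U)) (lv : ι → ℕ), G * H = 1 ∧ H * G = 1 ∧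
    W = G * T * H ∧ ∀ i j, T i j ≠ 0 → lv j < lv i ∨
      (lv i = 0 ∧ lv j = 0 ∧ ∀ t t', ev U t (T i j) = ev U t' (T i j))

theorem Good.conj {W : Matrix α α (Fam U)} (h : Good W) {E : Matrix β α (Fam U)}
    {E' : Matrix α β (Fam U)} (h1 : E * E' = 1) (h2 : E' * E = 1) : Good (E * W * E') := by
  obtain ⟨ι, _, _, G, H, T, lv, a1, a2, rfl, a4⟩ := h
  refine ⟨ι, inferInstance, inferInstance, E * G, H * E', T, lv, ?_, ?_, by simp only [Matrix.mul_assoc], a4⟩
  · rw [Matrix.mul_assoc, ← Matrix.mul_assoc G, a1, Matrix.one_mul, h1]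
  · rw [Matrix.mul_assoc, ← Matrix.mul_assoc E', h2, Matrix.one_mul, a2]

theorem Good.src {W : Matrix α α (Fam U)} (h : Good W) (S : Matrix β α (Fam U)) :
    Good (fromBlocks W 0 S (0 : Matrix β β (Fam U))) := by
  obtain ⟨ι, _, _, G, H, T, lv, a1, a2, rfl, a4⟩ := h
  refine ⟨ι ⊕ β, inferInstance, inferInstance, fromBlocks G 0 0 1, fromBlocks H 0 0 1,
    fromBlocks T 0 (S * G) 0,
    Sum.elim lv fun _ => ∑ a, lv a + 1, by simp [fromBlocks_multiply, a1],
    by simp [fromBlocks_multiply, a2], by simp [fromBlocks_multiply, Matrix.mul_assoc, a1], ?_⟩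
  rintro (i | i) (j | j) hne
  · exact a4 i j hne
  · simp at hne
  · have := Finset.single_le_sum (f := lv) (fun _ _ => Nat.zero_le _) (Finset.mem_univ j)
    left
    simp only [Sum.elim_inl, Sum.elim_inr]
    omega
  · simp at hne

/-- good after adding `d` layers of sinks -/
def SG (U : Subring ℝ) : ℕ → ∀ (α : Type) [Fintype α] [DecidableEq α], Matrix α α (Fam U) → Prop
  | 0, _, _, _, W => Good W
  | d + 1, α, _, _, W => ∃ (β : Type) (_ : Fintype β) (_ : DecidableEq β) (C : Matrix α β (Fam U)),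
      SG U d (α ⊕ β) (fromBlocks W C 0 0)

theorem SG.conj (d : ℕ) : ∀ {α β : Type} [Fintype α] [DecidableEq α] [Fintype β] [DecidableEq β]
    {W : Matrix α α (Fam U)} {E : Matrix β α (Fam U)} {E' : Matrix α β (Fam U)}, SG U d α W →
    E * E' = 1 → E' * E = 1 → SG U d β (E * W * E') := by
  induction d with
  | zero => exact fun h h1 h2 => Good.conj h h1 h2
  | succ d ih =>
    rintro α β _ _ _ _ W E E' ⟨γ, _, _, C, h⟩ h1 h2
    refine ⟨γ, inferInstance, inferInstance, E * C, ?_⟩
    have := ih (β := β ⊕ γ) (E := fromBlocks E 0 0 1) (E' := fromBlocks E' 0 0 1) h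
      (by simp [fromBlocks_multiply, h1]) (by simp [fromBlocks_multiply, h2])
    simpa [fromBlocks_multiply] using this

theorem SG.sub {d : ℕ} {W : Matrix α α (Fam U)} (h : SG U d α W) (e : β ≃ α) :
    SG U d β (W.submatrix e e) := by
  have := SG.conj d (E := (1 : Matrix α α (Fam U)).submatrix e (Equiv.refl α))
    (E' := (1 : Matrix α α (Fam U)).submatrix (Equiv.refl α) e) h
    (by rw [submatrix_mul_equiv, Matrix.one_mul, submatrix_one_equiv])
    (by rw [submatrix_mul_equiv, Matrix.one_mul, submatrix_one_equiv])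
  have h2 : W = W.submatrix (Equiv.refl α) (Equiv.refl α) := rfl
  rwa [h2, submatrix_mul_equiv, submatrix_mul_equiv, Matrix.one_mul, Matrix.mul_one] at this

theorem SG.src (d : ℕ) : ∀ {α β : Type} [Fintype α] [DecidableEq α] [Fintype β] [DecidableEq β]
    {W : Matrix α α (Fam U)} (S : Matrix β α (Fam U)), SG U d α W →
    SG U d (α ⊕ β) (fromBlocks W 0 S 0) := by
  induction d with
  | zero => exact fun S h => Good.src h S
  | succ d ih =>
    rintro α β _ _ _ _ W S ⟨γ, _, _, C, h⟩
    refine ⟨γ, inferInstance, inferInstance, fromRows C 0, ?_⟩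
    have := (ih (fromCols S 0) h).sub ((Equiv.sumAssoc α β γ).trans
      ((Equiv.sumCongr (Equiv.refl α) (Equiv.sumComm β γ)).trans (Equiv.sumAssoc α γ β).symm))
    convert this using 1
    ext ((i | i) | i) ((j | j) | j) <;> rfl

theorem SG.step {d : ℕ} (R : Matrix α β (Fam U)) (S : Matrix β α (Fam U))
    (h : SG U d α (R * S)) : SG U (d + 1) β (S * R) := by
  refine ⟨α, inferInstance, inferInstance, S, ?_⟩
  have := SG.conj d (E := fromBlocks 0 1 1 (-R)) (E' := fromBlocks R 1 1 0) (SG.src d S h)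
    (by simp [fromBlocks_multiply]) (by simp [fromBlocks_multiply])
  simpa [fromBlocks_multiply] using this

theorem sg_of_sse {A : Matrix α α U} {W : Matrix β β (Fam U)} (h : SSE ⊤ (A.map (cst U)) W) :
    ∃ d, SG U d β W := by
  refine h (fun X _ _ C => ∃ d, SG U d X C) ?_ ⟨0, α, inferInstance, inferInstance, 1, 1,
    A.map (cst U), fun _ => 0,
    by simp, by simp, by simp, fun i j _ => Or.inr ⟨rfl, rfl, fun _ _ => rfl⟩⟩
  rintro X Y _ _ _ _ R S - - ⟨d, hd⟩
  exact ⟨d + 1, hd.step R S⟩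

/-- the class is constant for parameters near `(s, t)` -/
def LC (W : Matrix α α (Fam U)) (s t : ℝ) : Prop :=
  ∀ᶠ p : ℝ × ℝ in 𝓝 (s, t), p.1 ∈ U → p.2 ∈ U →
    SSE (UP U) (W.map (ev U p.1)) (W.map (ev U p.2))

theorem Good.lc (hU : Small U) [Nonempty α] {W : Matrix α α (Fam U)} (h : Good W) {t : ℝ}
    (h0 : PosM (W.map (ev U t))) : LC W t t := by
  obtain ⟨ι, _, _, G, H, T, lv, a1, a2, rfl, a4⟩ := h
  have b1 : ∀ s, G.map (ev U s) * H.map (ev U s) = 1 := fun s => by
    rw [← Matrix.map_mul, a1, Matrix.map_one _ (map_zero _) (map_one _)]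
  have b2 : ∀ s, H.map (ev U s) * G.map (ev U s) = 1 := fun s => by
    rw [← Matrix.map_mul, a2, Matrix.map_one _ (map_zero _) (map_one _)]
  have bl : ∀ s, Lv lv (T.map (ev U s)) := fun s i j hne => by
    rcases a4 i j (fun h => hne (by rw [map_apply, h, map_zero])) with h | h
    exacts [Or.inl h, Or.inr ⟨h.1, h.2.1⟩]
  have c1 : Continuous fun p : ℝ × ℝ => (G.map (ev U p.1), H.map (ev U p.1), T.map (ev U p.1),
      T.map (ev U p.2)) := by fun_prop
  have c2 : Continuous fun p : ℝ × ℝ => ((G * T * H).map (ev U p.2),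
      G.map (ev U p.1) * H.map (ev U p.2), G.map (ev U p.2) * H.map (ev U p.1)) := by fun_prop
  have e1 := (c1.tendsto (t, t)).eventually
    (near_mix hU lv (by simpa only [Matrix.map_mul] using h0) Finset.univ)
  have e2 := (c2.tendsto' (t, t) (_, 1, 1) (by simp only [b1])).eventually (near_conj hU h0)
  filter_upwards [e1, e2]
  clear e1 e2 c1 c2
  rintro ⟨s, s'⟩ p1 p2 hs hs'
  simp only at p1 p2 hs hs' ⊢
  have q1 := p1 (map_ev_in G hs) (map_ev_in H hs) (map_ev_in T hs) (map_ev_in T hs') (b2 s) (bl s)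
    (bl s') (fun i j hne => by
      rcases a4 i j (fun h => hne (by rw [map_apply, map_apply, h, map_zero, map_zero])) with h | h
      · exact h
      · exact absurd (h.2.2 s s') hne)
  have q2 := p2 (map_ev_in _ hs') ((map_ev_in G hs).mul (map_ev_in H hs'))
    ((map_ev_in G hs').mul (map_ev_in H hs)) (by
      rw [Matrix.mul_assoc, ← Matrix.mul_assoc (H.map _), b2, Matrix.one_mul, b1])
  rw [Matrix.map_mul, Matrix.map_mul]
  refine q1.trans (SSE.trans (SSE.of_eq ?_) q2.symm)
  have : mix Finset.univ (T.map (ev U s)) (T.map (ev U s')) = T.map (ev U s') := by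
    ext a b
    simp [mix]
  rw [this, Matrix.map_mul, Matrix.map_mul]
  simp only [Matrix.mul_assoc]
  rw [← Matrix.mul_assoc (H.map _) (G.map _), b2, Matrix.one_mul,
    ← Matrix.mul_assoc (H.map _) (G.map _), b2, Matrix.one_mul]

theorem SG.lc (hU : Small U) (t : ℝ) (d : ℕ) : ∀ {α : Type} [Fintype α] [DecidableEq α]
    [Nonempty α] {W : Matrix α α (Fam U)}, SG U d α W → PosM (W.map (ev U t)) → LC W t t := by
  induction d with
  | zero => exact fun h h0 => Good.lc hU h h0
  | succ d ih =>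
    rintro α _ _ _ W ⟨β, _, _, C, h⟩ h0
    obtain ⟨θ, θ', t1, t2, t3, t4, t5, t6⟩ := near_snk hU h0 β
    have c1 : Continuous fun z : ℝ × ℝ => (W.map (ev U z.2), z.1 • C.map (ev U z.2)) := by
      fun_prop
    have e1 := (c1.tendsto' (0, t) (_, 0) (by simp)).eventually t6
    have e2 : ∀ᶠ e : ℝ in 𝓝 0,
        PosM (θ * fromBlocks (W.map (ev U t)) (e • C.map (ev U t)) 0 0 * θ') :=
      PosM.ev (by fun_prop) (by simpa using t5)
    obtain ⟨e, he, heU, heU', hp, hq⟩ := hU _ (e1.curry_nhds.and e2)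
    obtain ⟨η, hη⟩ := t1.exists_cst
    obtain ⟨η', hη'⟩ := t2.exists_cst
    have hee : cst U ⟨e, heU⟩ * cst U ⟨e⁻¹, heU'⟩ = 1 := by
      rw [← map_mul, ← map_one (cst U)]
      congr 1
      exact Subtype.ext (mul_inv_cancel₀ he.ne')
    have g1 := SG.conj d (β := α ⊕ β)
      (E := fromBlocks 1 0 0 (cst U ⟨e⁻¹, heU'⟩ • (1 : Matrix β β (Fam U))))
      (E' := fromBlocks 1 0 0 (cst U ⟨e, heU⟩ • (1 : Matrix β β (Fam U)))) h
      (by simp [fromBlocks_multiply, smul_smul, hee])
      (by simp [fromBlocks_multiply, smul_smul, mul_comm (cst U ⟨e⁻¹, heU'⟩), hee])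
    have g2 := SG.conj d (E := η) (E' := η') g1
      (fam_ext fun s => by
        rw [Matrix.map_mul, hη, hη', t3, Matrix.map_one _ (map_zero _) (map_one _)])
      (fam_ext fun s => by
        rw [Matrix.map_mul, hη, hη', t4, Matrix.map_one _ (map_zero _) (map_one _)])
    have hev : ∀ s, (η * (fromBlocks 1 0 0 (cst U ⟨e⁻¹, heU'⟩ • (1 : Matrix β β (Fam U))) *
        fromBlocks W C 0 0 * fromBlocks 1 0 0 (cst U ⟨e, heU⟩ • (1 : Matrix β β (Fam U)))) *
        η').map (ev U s) = θ * fromBlocks (W.map (ev U s)) (e • C.map (ev U s)) 0 0 * θ' := by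
      intro s
      rw [Matrix.map_mul, Matrix.map_mul, hη, hη']
      congr 2
      simp only [fromBlocks_multiply, Matrix.mul_zero, Matrix.zero_mul, add_zero, zero_add,
        Matrix.one_mul, Matrix.mul_one, Matrix.mul_smul, smul_zero]
      ext (i | i) (j | j) <;> simp
    have g3 := ih g2 (by rw [hev]; exact hq)
    have f1 := (continuous_fst.tendsto (t, t)).eventually hp
    have f2 := (continuous_snd.tendsto (t, t)).eventually hp
    filter_upwards [g3, f1, f2]
    rintro ⟨s, s'⟩ p1 p2 p3 hs hs'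
    have q := p1 hs hs'
    rw [hev, hev] at q
    exact (p2 (map_ev_in W hs) (In.smul heU (map_ev_in C hs))).trans
      (q.trans (p3 (map_ev_in W hs') (In.smul heU (map_ev_in C hs'))).symm)

theorem Small.dense (hU : Small U) : Dense (U : Set ℝ) := by
  refine AddSubgroup.dense_of_not_isolated_zero U.toAddSubgroup fun ε hε => ?_
  obtain ⟨e, he, heU, -, hp⟩ := hU (fun e => e < ε) (eventually_lt_nhds hε)
  exact ⟨e, heU, he, hp⟩

theorem rigid (hU : Small U) [Nonempty β] {A : Matrix α α U} {W : Matrix β β (Fam U)}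
    (h : SSE ⊤ (A.map (cst U)) W) (h0 : ∀ t ∈ Set.Icc (0 : ℝ) 1, PosM (W.map (ev U t))) :
    SSE (UP U) (W.map (ev U 0)) (W.map (ev U 1)) := by
  obtain ⟨d, hd⟩ := sg_of_sse h
  have key : LC W 0 1 := by
    refine isPreconnected_Icc.induction₂' (LC W) (fun x hx => ?_) ?_
      (Set.left_mem_Icc.2 zero_le_one) (Set.right_mem_Icc.2 zero_le_one)
    · have h1 := (SG.lc hU x d hd (h0 x hx)).eventually_nhds
      have c1 : Continuous fun y : ℝ => (x, y) := by fun_prop
      have c2 : Continuous fun y : ℝ => (y, x) := by fun_prop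
      exact (((c1.tendsto x).eventually h1).and ((c2.tendsto x).eventually h1)).filter_mono
        nhdsWithin_le_nhds
    · intro x y z _ _ _ h1 h2
      unfold LC at h1 h2 ⊢
      rw [nhds_prod_eq, eventually_prod_iff] at h1 h2 ⊢
      obtain ⟨a, ha, b, hb, hab⟩ := h1
      obtain ⟨b', hb', c, hc, hbc⟩ := h2
      obtain ⟨w, hw, hwU⟩ := hU.dense.inter_nhds_nonempty (hb.and hb')
      exact ⟨a, ha, c, hc, fun h3 _ h4 h5 h6 => (hab h3 hwU.1 h5 hw).trans (hbc hwU.2 h4 hw h6)⟩
  exact key.self_of_nhds U.zero_mem U.one_mem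

end Pool.Agent.MP_993212_an.H57
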